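import Mathlib

/-! # Symmetric decompositions of local algebras: definitions -/

set_option autoImplicit false

namespace Q37.NU

open IsLocalRing

section Defs

variable (A : Type*) [CommRing A] [IsLocalRing A]

/-- The ideal `(0 : 𝔪 ^ s)` of the local ring `A`. -/
def loewy (s : ℕ) : Ideal A := (maximalIdeal A ^ s).annihilator

/-- The socle degree `j` of `A`: the largest `i` with `𝔪 ^ i ≠ 0`. -/
noncomputable def socleDegree : ℕ := sSup {i : ℕ | maximalIdeal A ^ i ≠ ⊥}

/-- The ideal `((0 : 𝔪 ^ (j + 1 - a - i)) ∩ 𝔪 ^ i) + 𝔪 ^ (i + 1)`, where `j` is the socle degree; it is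
the preimage in `𝔪 ^ i` of the degree `i` part `C(a)_i ⊆ 𝔪 ^ i / 𝔪 ^ (i + 1)` of the ideal `C(a)` of the
associated graded algebra. (If `j + 1 - a - i` is not positive then `(0 : 𝔪 ^ 0) = 0` and
`C(a)_i = 0`.) -/
noncomputable def pre (a i : ℕ) : Ideal A :=
  loewy A (socleDegree A + 1 - a - i) ⊓ maximalIdeal A ^ i ⊔ maximalIdeal A ^ (i + 1)

/-- `H_A(a)_i = dim_k Q(a)_i`, where `Q(a)_i = C(a)_i / C(a + 1)_i`. -/
noncomputable def hilb (k : Type*) [Field k] [Algebra k A] (a i : ℕ) : ℕ :=
  Module.finrank k (↥(pre A a i) ⧸ (pre A (a + 1) i).submoduleOf (pre A a i))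

/-- The local `k`-algebra `A` is Artinian Gorenstein: it is Artinian and its socle `(0 : 𝔪)` is
one-dimensional (the residue field of `A` is `k` in all uses). -/
def IsAG (k : Type*) [Field k] [Algebra k A] : Prop :=
  IsArtinianRing A ∧ Module.finrank k (loewy A 1) = 1

end Defs

/-- The formal power series ring `k{x_1, …, x_r}`. -/
abbrev PS (k : Type*) [Field k] (r : ℕ) : Type _ := MvPowerSeries (Fin r) k

end Q37.NU
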