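import Mathlib

/-! # Non-ubiquity: the key lemma -/

set_option autoImplicit false

namespace Q37.NU

variable {k B : Type*} [Field k] [CommRing B] [Algebra k B]

/-- standing hypotheses on a `k`-algebra with an ideal `m` -/
structure Hyp (m : Ideal B) (x y : B) (k : Type*) [Field k] [Algebra k B] : Prop where
  hx : x ∈ m
  hy : y ∈ m
  h9 : ∀ w ∈ m ^ 9, w = 0
  ha : ∀ b ∈ m, ∃ c1 c2 : k, ∃ z ∈ m, (∀ w ∈ m ^ 7, z * w = 0) ∧ ∃ w ∈ m ^ 2,
    b = c1 • x + c2 • y + z + w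
  hb : ∀ b ∈ m ^ 3, (∀ w ∈ m ^ 5, b * w = 0) → b ∈ m ^ 4
  hd : ∀ b ∈ m ^ 2, (∀ w ∈ m ^ 5, b * w = 0) → b ∈ m ^ 3

/-- the ideal `m ∩ (0 : m ^ 7)` -/
def Zi (m : Ideal B) : Ideal B := m ⊓ (m ^ 7).annihilator

lemma mem_Zi {m : Ideal B} {z : B} : z ∈ Zi m ↔ z ∈ m ∧ ∀ w ∈ m ^ 7, z * w = 0 := by
  unfold Zi
  rw [Submodule.mem_inf, Submodule.mem_annihilator]
  rfl

lemma pmul {m : Ideal B} {a b : ℕ} {u v : B} (hu : u ∈ m ^ a) (hv : v ∈ m ^ b) : u * v ∈ m ^ (a + b) := by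
  rw [pow_add]; exact Ideal.mul_mem_mul hu hv

lemma pmul1 {m : Ideal B} {b : ℕ} {u v : B} (hu : u ∈ m) (hv : v ∈ m ^ b) : u * v ∈ m ^ (b + 1) := by
  rw [pow_succ, mul_comm u v]; exact Ideal.mul_mem_mul hv hu

lemma ple {m : Ideal B} {a b : ℕ} (h : a ≤ b) {u : B} (hu : u ∈ m ^ b) : u ∈ m ^ a :=
  Ideal.pow_le_pow_right h hu

lemma smem {I : Ideal B} (c : k) {u : B} (hu : u ∈ I) : c • u ∈ I := by
  rw [Algebra.smul_def]; exact I.mul_mem_left _ hu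

variable {m : Ideal B} {x y : B}

lemma zm2 (H : Hyp m x y k) {z b : B} (hz : z ∈ Zi m) (hb : b ∈ m ^ 2) : z * b ∈ m ^ 4 := by
  rw [mem_Zi] at hz
  refine H.hb _ (pmul1 hz.1 hb) fun w hw => ?_
  rw [mul_assoc]
  exact hz.2 _ (pmul hb hw)

lemma zm3 (H : Hyp m x y k) {z b : B} (hz : z ∈ Zi m) (hb : b ∈ m ^ 3) : z * b ∈ m ^ 5 := by
  rw [pow_succ] at hb
  induction hb using Submodule.mul_induction_on' with
  | mem_mul_mem u hu v hv =>
    rw [← mul_assoc, mul_comm]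
    exact pmul1 hv (zm2 H hz hu)
  | add u _ v _ h1 h2 => rw [mul_add]; exact add_mem h1 h2

/-- the ideal `m Z` -/
lemma nm4 (H : Hyp m x y k) {n a : B} (hn : n ∈ m * Zi m) (ha : a ∈ m) : n * a ∈ m ^ 4 := by
  induction hn using Submodule.mul_induction_on' with
  | mem_mul_mem u hu v hv =>
    have : u * v * a = v * (u * a) := by ring
    rw [this]
    refine zm2 H hv ?_
    rw [pow_two]; exact Ideal.mul_mem_mul hu ha
  | add u _ v _ h1 h2 => rw [add_mul]; exact add_mem h1 h2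

lemma sq_form (H : Hyp m x y k) {b : B} (hb : b ∈ m ^ 2) : ∃ p0 p1 p2 : k, ∃ n ∈ m * Zi m, ∃ w ∈ m ^ 3,
    b = p0 • x ^ 2 + p1 • (x * y) + p2 • y ^ 2 + n + w := by
  rw [pow_two] at hb
  induction hb using Submodule.mul_induction_on' with
  | mem_mul_mem u hu v hv =>
    obtain ⟨a1, a2, z, hz, hz7, w, hw, rfl⟩ := H.ha u hu
    obtain ⟨b1, b2, z', hz', hz7', w', hw', rfl⟩ := H.ha v hv
    have e1 : a1 • x + a2 • y ∈ m := add_mem (smem _ H.hx) (smem _ H.hy)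
    refine ⟨a1 * b1, a1 * b2 + a2 * b1, a2 * b2,
      (a1 • x + a2 • y) * z' + (b1 • x + b2 • y + z' + w') * z, ?_,
      w' * (a1 • x + a2 • y) + w * (b1 • x + b2 • y + z' + w'), ?_, ?_⟩
    · exact add_mem (Ideal.mul_mem_mul e1 (mem_Zi.2 ⟨hz', hz7'⟩)) (Ideal.mul_mem_mul hv (mem_Zi.2 ⟨hz, hz7⟩))
    · refine add_mem ?_ ?_
      · rw [mul_comm]; exact pmul1 e1 hw'
      · rw [mul_comm]; exact pmul1 hv hw
    · simp only [Algebra.smul_def, map_mul, map_add]; ring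
  | add u _ v _ h1 h2 =>
    obtain ⟨p0, p1, p2, n, hn, w, hw, rfl⟩ := h1
    obtain ⟨q0, q1, q2, n', hn', w', hw', rfl⟩ := h2
    exact ⟨p0 + q0, p1 + q1, p2 + q2, n + n', add_mem hn hn', w + w', add_mem hw hw', by
      simp only [add_smul]; ring⟩

lemma cub_form (H : Hyp m x y k) {b : B} (hb : b ∈ m ^ 3) : ∃ p0 p1 p2 p3 : k, ∃ w ∈ m ^ 4,
    b = p0 • x ^ 3 + p1 • (x ^ 2 * y) + p2 • (x * y ^ 2) + p3 • y ^ 3 + w := by
  rw [pow_succ] at hb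
  induction hb using Submodule.mul_induction_on' with
  | mem_mul_mem u hu v hv =>
    obtain ⟨a0, a1, a2, n, hn, w, hw, hu'⟩ := sq_form H hu
    obtain ⟨b1, b2, z, hz, hz7, w', hw', hv'⟩ := H.ha v hv
    have e1 : b1 • x + b2 • y ∈ m := add_mem (smem _ H.hx) (smem _ H.hy)
    refine ⟨a0 * b1, a0 * b2 + a1 * b1, a1 * b2 + a2 * b1, a2 * b2,
      n * (b1 • x + b2 • y) + (b1 • x + b2 • y) * w + z * u + u * w', ?_, ?_⟩
    · exact add_mem (add_mem (add_mem (nm4 H hn e1) (pmul1 e1 hw)) (zm2 H (mem_Zi.2 ⟨hz, hz7⟩) hu))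
        (pmul hu hw')
    · have : u * v = u * (b1 • x + b2 • y) + z * u + u * w' := by rw [hv']; ring
      rw [this]
      nth_rewrite 1 [hu']
      simp only [Algebra.smul_def, map_mul, map_add]; ring
  | add u _ v _ h1 h2 =>
    obtain ⟨p0, p1, p2, p3, w, hw, rfl⟩ := h1
    obtain ⟨q0, q1, q2, q3, w', hw', rfl⟩ := h2
    exact ⟨p0 + q0, p1 + q1, p2 + q2, p3 + q3, w + w', add_mem hw hw', by
      simp only [add_smul]; ring⟩

lemma qrt_form (H : Hyp m x y k) {b : B} (hb : b ∈ m ^ 4) : ∃ p0 p1 p2 p3 p4 : k, ∃ w ∈ m ^ 5,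
    b = p0 • x ^ 4 + p1 • (x ^ 3 * y) + p2 • (x ^ 2 * y ^ 2) + p3 • (x * y ^ 3) + p4 • y ^ 4 + w := by
  rw [pow_succ] at hb
  induction hb using Submodule.mul_induction_on' with
  | mem_mul_mem u hu v hv =>
    obtain ⟨a0, a1, a2, a3, w, hw, hu'⟩ := cub_form H hu
    obtain ⟨b1, b2, z, hz, hz7, w', hw', hv'⟩ := H.ha v hv
    have e1 : b1 • x + b2 • y ∈ m := add_mem (smem _ H.hx) (smem _ H.hy)
    refine ⟨a0 * b1, a0 * b2 + a1 * b1, a1 * b2 + a2 * b1, a2 * b2 + a3 * b1, a3 * b2,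
      (b1 • x + b2 • y) * w + z * u + u * w', ?_, ?_⟩
    · exact add_mem (add_mem (pmul1 e1 hw) (zm3 H (mem_Zi.2 ⟨hz, hz7⟩) hu)) (pmul hu hw')
    · have : u * v = u * (b1 • x + b2 • y) + z * u + u * w' := by rw [hv']; ring
      rw [this]
      nth_rewrite 1 [hu']
      simp only [Algebra.smul_def, map_mul, map_add]; ring
  | add u _ v _ h1 h2 =>
    obtain ⟨p0, p1, p2, p3, p4, w, hw, rfl⟩ := h1
    obtain ⟨q0, q1, q2, q3, q4, w', hw', rfl⟩ := h2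
    exact ⟨p0 + q0, p1 + q1, p2 + q2, p3 + q3, p4 + q4, w + w', add_mem hw hw', by
      simp only [add_smul]; ring⟩

lemma zm4 (H : Hyp m x y k) {z b : B} (hz : z ∈ Zi m) (hb : b ∈ m ^ 4) : z * b ∈ m ^ 6 := by
  rw [pow_succ] at hb
  induction hb using Submodule.mul_induction_on' with
  | mem_mul_mem u hu v hv =>
    rw [← mul_assoc, mul_comm]
    exact pmul1 hv (zm3 H hz hu)
  | add u _ v _ h1 h2 => rw [mul_add]; exact add_mem h1 h2

lemma qnt_form (H : Hyp m x y k) {b : B} (hb : b ∈ m ^ 5) : ∃ p0 p1 p2 p3 p4 p5 : k, ∃ w ∈ m ^ 6,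
    b = p0 • x ^ 5 + p1 • (x ^ 4 * y) + p2 • (x ^ 3 * y ^ 2) + p3 • (x ^ 2 * y ^ 3) +
      p4 • (x * y ^ 4) + p5 • y ^ 5 + w := by
  rw [pow_succ] at hb
  induction hb using Submodule.mul_induction_on' with
  | mem_mul_mem u hu v hv =>
    obtain ⟨a0, a1, a2, a3, a4, w, hw, hu'⟩ := qrt_form H hu
    obtain ⟨b1, b2, z, hz, hz7, w', hw', hv'⟩ := H.ha v hv
    have e1 : b1 • x + b2 • y ∈ m := add_mem (smem _ H.hx) (smem _ H.hy)
    refine ⟨a0 * b1, a0 * b2 + a1 * b1, a1 * b2 + a2 * b1, a2 * b2 + a3 * b1, a3 * b2 + a4 * b1, a4 * b2,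
      (b1 • x + b2 • y) * w + z * u + u * w', ?_, ?_⟩
    · exact add_mem (add_mem (pmul1 e1 hw) (zm4 H (mem_Zi.2 ⟨hz, hz7⟩) hu)) (pmul hu hw')
    · have : u * v = u * (b1 • x + b2 • y) + z * u + u * w' := by rw [hv']; ring
      rw [this]
      nth_rewrite 1 [hu']
      simp only [Algebra.smul_def, map_mul, map_add]; ring
  | add u _ v _ h1 h2 =>
    obtain ⟨p0, p1, p2, p3, p4, p5, w, hw, rfl⟩ := h1
    obtain ⟨q0, q1, q2, q3, q4, q5, w', hw', rfl⟩ := h2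
    exact ⟨p0 + q0, p1 + q1, p2 + q2, p3 + q3, p4 + q4, p5 + q5, w + w', add_mem hw hw', by
      simp only [add_smul]; ring⟩

/-- independence of the quintic monomials modulo `m ^ 6` -/
def Ind (m : Ideal B) (x y : B) (k : Type*) [Field k] [Algebra k B] : Prop :=
  ∀ c0 c1 c2 c3 c4 c5 : k, c0 • x ^ 5 + c1 • (x ^ 4 * y) + c2 • (x ^ 3 * y ^ 2) +
    c3 • (x ^ 2 * y ^ 3) + c4 • (x * y ^ 4) + c5 • y ^ 5 ∈ m ^ 6 →
    c0 = 0 ∧ c1 = 0 ∧ c2 = 0 ∧ c3 = 0 ∧ c4 = 0 ∧ c5 = 0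

lemma x_inj (H : Hyp m x y k) (hc : Ind m x y k) {u : B} (hu : u ∈ m ^ 4) (hxu : x * u ∈ m ^ 6) :
    u ∈ m ^ 5 := by
  obtain ⟨p0, p1, p2, p3, p4, w, hw, rfl⟩ := qrt_form H hu
  have h := sub_mem hxu (pmul1 H.hx hw)
  have e : x * (p0 • x ^ 4 + p1 • (x ^ 3 * y) + p2 • (x ^ 2 * y ^ 2) + p3 • (x * y ^ 3) + p4 • y ^ 4 + w) -
      x * w = p0 • x ^ 5 + p1 • (x ^ 4 * y) + p2 • (x ^ 3 * y ^ 2) +
    p3 • (x ^ 2 * y ^ 3) + p4 • (x * y ^ 4) + (0 : k) • y ^ 5 := by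
    simp only [Algebra.smul_def, map_zero]; ring
  rw [e] at h
  obtain ⟨e0, e1, e2, e3, e4, -⟩ := hc p0 p1 p2 p3 p4 0 h
  rw [e0, e1, e2, e3, e4]
  simpa using hw

/-- for `z ∈ Z` there is a quadratic form `κ` with `(z - κ) β ∈ m ^ 5` for the three monomials -/
lemma kappa (H : Hyp m x y k) (hc : Ind m x y k) {z : B} (hz : z ∈ Zi m) : ∃ κ ∈ m ^ 2,
    (z - κ) * x ^ 2 ∈ m ^ 5 ∧ (z - κ) * (x * y) ∈ m ^ 5 ∧ (z - κ) * y ^ 2 ∈ m ^ 5 := by
  have hx2 : x ^ 2 ∈ m ^ 2 := Ideal.pow_mem_pow H.hx 2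
  have hxy : x * y ∈ m ^ 2 := by rw [pow_two]; exact Ideal.mul_mem_mul H.hx H.hy
  have hy2 : y ^ 2 ∈ m ^ 2 := Ideal.pow_mem_pow H.hy 2
  obtain ⟨p0, p1, p2, p3, p4, ρ1, hρ1, h1⟩ := qrt_form H (zm2 H hz hx2)
  obtain ⟨q0, q1, q2, q3, q4, ρ2, hρ2, h2⟩ := qrt_form H (zm2 H hz hxy)
  obtain ⟨r0, r1, r2, r3, r4, ρ3, hρ3, h3⟩ := qrt_form H (zm2 H hz hy2)
  have g1 := hc (-q0) (p0 - q1) (p1 - q2) (p2 - q3) (p3 - q4) p4 (by
    have h := sub_mem (pmul1 H.hx hρ2) (pmul1 H.hy hρ1)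
    have e : x * ρ2 - y * ρ1 = (-q0) • x ^ 5 + (p0 - q1) • (x ^ 4 * y) + (p1 - q2) • (x ^ 3 * y ^ 2) +
        (p2 - q3) • (x ^ 2 * y ^ 3) + (p3 - q4) • (x * y ^ 4) + p4 • y ^ 5 := by
      simp only [Algebra.smul_def, map_sub, map_neg] at *
      linear_combination y * h1 - x * h2
    rwa [e] at h)
  have g2 := hc (-r0) (q0 - r1) (q1 - r2) (q2 - r3) (q3 - r4) q4 (by
    have h := sub_mem (pmul1 H.hx hρ3) (pmul1 H.hy hρ2)
    have e : x * ρ3 - y * ρ2 = (-r0) • x ^ 5 + (q0 - r1) • (x ^ 4 * y) + (q1 - r2) • (x ^ 3 * y ^ 2) +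
        (q2 - r3) • (x ^ 2 * y ^ 3) + (q3 - r4) • (x * y ^ 4) + q4 • y ^ 5 := by
      simp only [Algebra.smul_def, map_sub, map_neg] at *
      linear_combination y * h2 - x * h3
    rwa [e] at h)
  obtain ⟨a0, a1, a2, a3, a4, a5⟩ := g1
  obtain ⟨b0, b1, b2, b3, b4, b5⟩ := g2
  have c0 : q0 = 0 := by linear_combination -a0
  have c1 : q1 = p0 := by linear_combination -a1
  have c2 : q2 = p1 := by linear_combination -a2
  have c3 : q3 = p2 := by linear_combination -a3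
  have c4 : p3 = 0 := by linear_combination a4 + b5
  have d0 : r0 = 0 := by linear_combination -b0
  have d1 : r1 = 0 := by linear_combination -b1 + c0
  have d2 : r2 = p0 := by linear_combination -b2 + c1
  have d3 : r3 = p1 := by linear_combination -b3 + c2
  have d4 : r4 = p2 := by linear_combination -b4 + c3
  refine ⟨p0 • x ^ 2 + p1 • (x * y) + p2 • y ^ 2,
    add_mem (add_mem (smem _ hx2) (smem _ hxy)) (smem _ hy2), ?_, ?_, ?_⟩
  · have e : (z - (p0 • x ^ 2 + p1 • (x * y) + p2 • y ^ 2)) * x ^ 2 = ρ1 := by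
      rw [c4, a5] at h1
      simp only [Algebra.smul_def, map_zero] at *
      linear_combination h1
    rw [e]; exact hρ1
  · have e : (z - (p0 • x ^ 2 + p1 • (x * y) + p2 • y ^ 2)) * (x * y) = ρ2 := by
      rw [c0, c1, c2, c3, b5] at h2
      simp only [Algebra.smul_def, map_zero] at *
      linear_combination h2
    rw [e]; exact hρ2
  · have e : (z - (p0 • x ^ 2 + p1 • (x * y) + p2 • y ^ 2)) * y ^ 2 = ρ3 := by
      rw [d0, d1, d2, d3, d4] at h3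
      simp only [Algebra.smul_def, map_zero] at *
      linear_combination h3
    rw [e]; exact hρ3

lemma xwz (H : Hyp m x y k) (hc : Ind m x y k) {w z : B} (hw : w ∈ Zi m) (hz : z ∈ Zi m) :
    x * (w * z) ∈ m ^ 5 ∧ y * (w * z) ∈ m ^ 5 := by
  obtain ⟨κ, hκ, k1, k2, k3⟩ := kappa H hc hz
  have hwm : w ∈ m := (mem_Zi.1 hw).1
  have hzm : z ∈ m := (mem_Zi.1 hz).1
  constructor
  · refine x_inj H hc ?_ ?_
    · have : x * (w * z) = w * (x * z) := by ring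
      rw [this]
      exact zm2 H hw (by rw [pow_two]; exact Ideal.mul_mem_mul H.hx hzm)
    · have : x * (x * (w * z)) = w * ((z - κ) * x ^ 2) + (w * κ) * x ^ 2 := by ring
      rw [this]
      exact add_mem (pmul1 hwm k1) (pmul (zm2 H hw hκ) (Ideal.pow_mem_pow H.hx 2))
  · refine x_inj H hc ?_ ?_
    · have : y * (w * z) = w * (y * z) := by ring
      rw [this]
      exact zm2 H hw (by rw [pow_two]; exact Ideal.mul_mem_mul H.hy hzm)
    · have : x * (y * (w * z)) = w * ((z - κ) * (x * y)) + (w * κ) * (x * y) := by ring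
      rw [this]
      exact add_mem (pmul1 hwm k2) (pmul (zm2 H hw hκ) (by rw [pow_two]; exact Ideal.mul_mem_mul H.hx H.hy))

lemma awz (H : Hyp m x y k) (hc : Ind m x y k) {a w z : B} (ha : a ∈ m) (hw : w ∈ Zi m) (hz : z ∈ Zi m) :
    a * (w * z) ∈ m ^ 5 := by
  have hwm : w ∈ m := (mem_Zi.1 hw).1
  have hzm : z ∈ m := (mem_Zi.1 hz).1
  obtain ⟨a1, a2, t, ht, ht7, v, hv, rfl⟩ := H.ha a ha
  have hT : t ∈ Zi m := mem_Zi.2 ⟨ht, ht7⟩
  obtain ⟨h1, h2⟩ := xwz H hc hw hz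
  have h3 : t * (w * z) ∈ m ^ 5 := by
    refine x_inj H hc (zm2 H hT (by rw [pow_two]; exact Ideal.mul_mem_mul hwm hzm)) ?_
    have : x * (t * (w * z)) = t * (x * (w * z)) := by ring
    rw [this]
    exact pmul1 ht h1
  have h4 : v * (w * z) ∈ m ^ 5 := by
    have : v * (w * z) = z * (w * v) := by ring
    rw [this]
    exact pmul1 hzm (zm2 H hw hv)
  have : (a1 • x + a2 • y + t + v) * (w * z) = a1 • (x * (w * z)) + a2 • (y * (w * z)) + t * (w * z) + v * (w * z) := by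
    simp only [Algebra.smul_def]; ring
  rw [this]
  exact add_mem (add_mem (add_mem (smem _ h1) (smem _ h2)) h3) h4

lemma zk_sq (H : Hyp m x y k) (hc : Ind m x y k) {z κ : B} (hz : z ∈ Zi m) (hκ : κ ∈ m ^ 2)
    (k1 : (z - κ) * x ^ 2 ∈ m ^ 5) (k2 : (z - κ) * (x * y) ∈ m ^ 5) (k3 : (z - κ) * y ^ 2 ∈ m ^ 5)
    {b : B} (hb : b ∈ m ^ 2) : (z - κ) * b ∈ m ^ 5 := by
  obtain ⟨p0, p1, p2, n, hn, w, hw, rfl⟩ := sq_form H hb
  have h1 : (z - κ) * n ∈ m ^ 5 := by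
    clear hb
    induction hn using Submodule.mul_induction_on' with
    | mem_mul_mem u hu v hv =>
      have : (z - κ) * (u * v) = u * (v * z) - u * (v * κ) := by ring
      rw [this]
      exact sub_mem (awz H hc hu hv hz) (pmul1 hu (zm2 H hv hκ))
    | add u _ v _ h1 h2 => rw [mul_add]; exact add_mem h1 h2
  have h2 : (z - κ) * w ∈ m ^ 5 := by
    rw [sub_mul]
    exact sub_mem (zm3 H hz hw) (pmul hκ hw)
  have : (z - κ) * (p0 • x ^ 2 + p1 • (x * y) + p2 • y ^ 2 + n + w) =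
      p0 • ((z - κ) * x ^ 2) + p1 • ((z - κ) * (x * y)) + p2 • ((z - κ) * y ^ 2) + (z - κ) * n + (z - κ) * w := by
    simp only [Algebra.smul_def]; ring
  rw [this]
  exact add_mem (add_mem (add_mem (add_mem (smem _ k1) (smem _ k2)) (smem _ k3)) h1) h2

lemma az (H : Hyp m x y k) (hc : Ind m x y k) {a z : B} (ha : a ∈ m) (hz : z ∈ Zi m) : a * z ∈ m ^ 3 := by
  obtain ⟨κ, hκ, k1, k2, k3⟩ := kappa H hc hz
  have hzκ : z - κ ∈ m := sub_mem (mem_Zi.1 hz).1 (Ideal.pow_le_self (by norm_num) hκ)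
  have h1 : a * (z - κ) ∈ m ^ 3 := by
    refine H.hd _ (by rw [pow_two]; exact Ideal.mul_mem_mul ha hzκ) fun w hw => ?_
    have h2 : a * w ∈ m ^ 2 * m ^ 4 := by
      rw [← pow_add]; exact pmul1 ha hw
    have h3 : ∀ b ∈ m ^ 2 * m ^ 4, (z - κ) * b ∈ m ^ 9 := by
      intro b hb
      induction hb using Submodule.mul_induction_on' with
      | mem_mul_mem u hu v hv =>
        rw [← mul_assoc]
        exact pmul (zk_sq H hc hz hκ k1 k2 k3 hu) hv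
      | add u _ v _ h1 h2 => rw [mul_add]; exact add_mem h1 h2
    have : a * (z - κ) * w = (z - κ) * (a * w) := by ring
    rw [this]
    exact H.h9 _ (h3 _ h2)
  have : a * z = a * (z - κ) + a * κ := by ring
  rw [this]
  exact add_mem h1 (pmul1 ha hκ)

/-- **Key lemma.** -/
theorem key (H : Hyp m x y k) (hc : Ind m x y k) {b : B} (hb : b ∈ m ^ 2) : ∃ p0 p1 p2 : k,
    b - (p0 • x ^ 2 + p1 • (x * y) + p2 • y ^ 2) ∈ m ^ 3 := by
  obtain ⟨p0, p1, p2, n, hn, w, hw, rfl⟩ := sq_form H hb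
  refine ⟨p0, p1, p2, ?_⟩
  have hn3 : n ∈ m ^ 3 := by
    clear hb
    induction hn using Submodule.mul_induction_on' with
    | mem_mul_mem u hu v hv => exact az H hc hu hv
    | add u _ v _ h1 h2 => exact add_mem h1 h2
  have : p0 • x ^ 2 + p1 • (x * y) + p2 • y ^ 2 + n + w - (p0 • x ^ 2 + p1 • (x * y) + p2 • y ^ 2) = n + w := by
    ring
  rw [this]
  exact add_mem hn3 hw

end Q37.NU
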