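import Pool.Agent.Q37.NU.Defs
import Pool.Agent.Q37.NU.Key

/-! # Non-ubiquity: general facts on the decomposition, and the non-existence -/

set_option autoImplicit false

namespace Q37.NU

open IsLocalRing Module

section lin

variable {k V : Type*} [Field k] [AddCommGroup V] [Module k V] [FiniteDimensional k V]

lemma finrank_sup_span {n : ℕ} (F E : Submodule k V) (v : Fin n → V)
    (hE : E ≤ F ⊔ Submodule.span k (Set.range v)) : finrank k E ≤ finrank k F + n := by
  refine (Submodule.finrank_mono hE).trans ((Submodule.finrank_add_le_finrank_add_finrank _ _).trans ?_)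
  have := finrank_range_le_card (R := k) v
  rw [Fintype.card_fin] at this
  exact Nat.add_le_add_left this _

lemma indep {n : ℕ} (F E : Submodule k V) (v : Fin n → V)
    (hE : E ≤ F ⊔ Submodule.span k (Set.range v)) (hfr : finrank k F + n ≤ finrank k E)
    (c : Fin n → k) (hc : ∑ i, c i • v i ∈ F) (s : Fin n) : c s = 0 := by
  by_contra hs
  classical
  let W := Submodule.span k ((Finset.univ.erase s).image v : Set V)
  have hvs : v s ∈ F ⊔ W := by
    have e : v s = (c s)⁻¹ • (∑ i, c i • v i) - ∑ i ∈ Finset.univ.erase s, ((c s)⁻¹ * c i) • v i := by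
      rw [← Finset.add_sum_erase Finset.univ (fun i => c i • v i) (Finset.mem_univ s), smul_add, smul_smul,
        inv_mul_cancel₀ hs, one_smul, Finset.smul_sum]
      simp only [smul_smul]
      abel
    rw [e]
    refine sub_mem (Submodule.mem_sup_left (F.smul_mem _ hc)) (Submodule.mem_sup_right ?_)
    refine Submodule.sum_mem _ fun i hi => Submodule.smul_mem _ _ (Submodule.subset_span ?_)
    rw [Finset.coe_image]
    exact ⟨i, hi, rfl⟩
  have hE2 : E ≤ F ⊔ W := by
    refine hE.trans (sup_le le_sup_left ?_)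
    rw [Submodule.span_le]
    rintro _ ⟨i, rfl⟩
    by_cases his : i = s
    · rw [his]; exact hvs
    · refine Submodule.mem_sup_right (Submodule.subset_span ?_)
      rw [Finset.coe_image]
      exact ⟨i, by simp [his], rfl⟩
  have h1 := (Submodule.finrank_mono hE2).trans (Submodule.finrank_add_le_finrank_add_finrank _ _)
  have h2 : finrank k W ≤ ((Finset.univ.erase s).image v).card := finrank_span_finset_le_card _
  have h3 : ((Finset.univ.erase s).image v).card ≤ n - 1 := by
    refine Finset.card_image_le.trans ?_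
    rw [Finset.card_erase_of_mem (Finset.mem_univ s), Finset.card_univ, Fintype.card_fin]
  have hn : 0 < n := Fin.pos s
  omega

lemma frq (F E : Submodule k V) (hF : F ≤ E) :
    finrank k (E.map F.mkQ) + finrank k F = finrank k E := by
  have h := LinearMap.finrank_range_add_finrank_ker (F.mkQ.domRestrict E)
  have h1 : LinearMap.range (F.mkQ.domRestrict E) = E.map F.mkQ := LinearMap.range_domRestrict _ _
  have h2 : LinearMap.ker (F.mkQ.domRestrict E) = F.submoduleOf E := by
    ext b
    rw [LinearMap.mem_ker, LinearMap.domRestrict_apply, Submodule.mkQ_apply, Submodule.Quotient.mk_eq_zero]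
    rfl
  rw [h1, h2, (Submodule.submoduleOfEquivOfLe hF).finrank_eq] at h
  exact h

lemma lower {n : ℕ} (F E : Submodule k V) (v : Fin n → V) (hF : F ≤ E) (hv : ∀ i, v i ∈ E)
    (hind : ∀ c : Fin n → k, ∑ i, c i • v i ∈ F → ∀ i, c i = 0) : finrank k F + n ≤ finrank k E := by
  have hli : LinearIndependent k (F.mkQ ∘ v) := by
    rw [Fintype.linearIndependent_iff]
    intro c hc i
    refine hind c ?_ i
    rw [← Submodule.Quotient.mk_eq_zero, ← Submodule.mkQ_apply, map_sum]
    simpa using hc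
  have h1 : n ≤ finrank k (E.map F.mkQ) := by
    have h2 : Submodule.span k (Set.range (F.mkQ ∘ v)) ≤ E.map F.mkQ := by
      rw [Submodule.span_le]
      rintro _ ⟨i, rfl⟩
      exact ⟨v i, hv i, rfl⟩
    have h3 := Submodule.finrank_mono h2
    rw [finrank_span_eq_card hli, Fintype.card_fin] at h3
    exact h3
  have h4 := frq F E hF
  omega

lemma two_gens (F E : Submodule k V) (hF : F ≤ E) (h : finrank k E ≤ finrank k F + 2) :
    ∃ x ∈ E, ∃ y ∈ E, ∀ b ∈ E, ∃ c1 c2 : k, b - (c1 • x + c2 • y) ∈ F := by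
  have h0 := frq F E hF
  have h1 : finrank k (E.map F.mkQ) ≤ 2 := by omega
  have key : ∃ u v : E.map F.mkQ, ∀ w : E.map F.mkQ, ∃ c1 c2 : k, w = c1 • u + c2 • v := by
    rcases Nat.lt_or_ge 0 (finrank k (E.map F.mkQ)) with h2 | h2
    · rcases Nat.lt_or_ge 1 (finrank k (E.map F.mkQ)) with h3 | h3
      · have b := Module.finBasisOfFinrankEq k (E.map F.mkQ) (n := 2) (by omega)
        refine ⟨b 0, b 1, fun w => ⟨b.repr w 0, b.repr w 1, ?_⟩⟩
        conv_lhs => rw [← b.sum_repr w]
        rw [Fin.sum_univ_two]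
      · have b := Module.finBasisOfFinrankEq k (E.map F.mkQ) (n := 1) (by omega)
        refine ⟨b 0, 0, fun w => ⟨b.repr w 0, 0, ?_⟩⟩
        conv_lhs => rw [← b.sum_repr w]
        simp
    · have h3 : finrank k (E.map F.mkQ) = 0 := by omega
      have : Subsingleton (E.map F.mkQ) := Module.finrank_zero_iff.1 h3
      exact ⟨0, 0, fun w => ⟨0, 0, Subsingleton.elim _ _⟩⟩
  obtain ⟨⟨u, x, hx, hu⟩, ⟨v, y, hy, hv⟩, huv⟩ := key
  refine ⟨x, hx, y, hy, fun b hb => ?_⟩
  obtain ⟨c1, c2, hc⟩ := huv ⟨F.mkQ b, b, hb, rfl⟩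
  refine ⟨c1, c2, ?_⟩
  have hc' : F.mkQ b = c1 • u + c2 • v := congrArg Subtype.val hc
  rw [← Submodule.Quotient.mk_eq_zero, ← Submodule.mkQ_apply, map_sub, map_add, map_smul, map_smul, hu, hv, hc',
    sub_self]

end lin

section loc

variable {A : Type*} [CommRing A] [IsLocalRing A]

lemma mem_loewy {s : ℕ} {a : A} : a ∈ loewy A s ↔ ∀ w ∈ maximalIdeal A ^ s, a * w = 0 := by
  unfold loewy
  rw [Submodule.mem_annihilator]
  rfl

lemma loewy_mono {s t : ℕ} (h : s ≤ t) : loewy A s ≤ loewy A t :=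
  Submodule.annihilator_mono (Ideal.pow_le_pow_right h)

lemma loewy_zero : loewy A 0 = ⊥ := by
  rw [eq_bot_iff]
  intro a ha
  have := mem_loewy.1 ha 1 (by simp)
  simpa using this

lemma pre_succ_le (a i : ℕ) : pre A (a + 1) i ≤ pre A a i :=
  sup_le_sup_right (inf_le_inf_right _ (loewy_mono (by omega))) _

lemma pow_le_pre (a i : ℕ) : maximalIdeal A ^ (i + 1) ≤ pre A a i := le_sup_right

lemma pre_le_pow (a i : ℕ) : pre A a i ≤ maximalIdeal A ^ i :=
  sup_le inf_le_right (Ideal.pow_le_pow_right (Nat.le_succ i))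

lemma pre_large {a i : ℕ} (h : socleDegree A + 1 ≤ a + i) : pre A a i = maximalIdeal A ^ (i + 1) := by
  unfold pre
  have : socleDegree A + 1 - a - i = 0 := by omega
  rw [this, loewy_zero, bot_inf_eq, bot_sup_eq]

variable (k : Type*) [Field k] [Algebra k A]

/-- the dimension of an ideal -/
noncomputable abbrev fr (I : Ideal A) : ℕ := finrank k (I.restrictScalars k)

lemma hilb_add [FiniteDimensional k A] (a i : ℕ) : hilb A k a i + fr k (pre A (a + 1) i) = fr k (pre A a i) := by
  have h := Submodule.finrank_quotient_add_finrank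
    (((pre A (a + 1) i).submoduleOf (pre A a i)).restrictScalars k)
  have e1 : finrank k (↥(pre A a i) ⧸ (((pre A (a + 1) i).submoduleOf (pre A a i)).restrictScalars k)) =
      hilb A k a i :=
    (Submodule.Quotient.restrictScalarsEquiv k ((pre A (a + 1) i).submoduleOf (pre A a i))).finrank_eq
  have e2 : finrank k ↥(((pre A (a + 1) i).submoduleOf (pre A a i)).restrictScalars k) =
      fr k (pre A (a + 1) i) :=
    (Submodule.submoduleOfEquivOfLe (show (pre A (a + 1) i).restrictScalars k ≤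
      (pre A a i).restrictScalars k from pre_succ_le a i)).finrank_eq
  rw [e1, e2] at h
  exact h

lemma eq_of_fr [FiniteDimensional k A] {I J : Ideal A} (h : I ≤ J) (hf : fr k J ≤ fr k I) : I = J := by
  have h2 : I.restrictScalars k ≤ J.restrictScalars k := h
  have := Submodule.eq_of_le_of_finrank_le h2 hf
  exact Submodule.restrictScalars_injective k A A this

lemma fr_mono [FiniteDimensional k A] {I J : Ideal A} (h : I ≤ J) : fr k I ≤ fr k J :=
  Submodule.finrank_mono (show I.restrictScalars k ≤ J.restrictScalars k from h)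

lemma pre_eq_of_zero [FiniteDimensional k A] {a i : ℕ} (h : ∀ u, a ≤ u → hilb A k u i = 0) :
    pre A a i = maximalIdeal A ^ (i + 1) := by
  have h1 : ∀ n, pre A a i = pre A (a + n) i := by
    intro n
    induction n with
    | zero => rfl
    | succ n ih =>
      rw [ih]
      have := hilb_add (A := A) k (a + n) i
      rw [h (a + n) (by omega), zero_add] at this
      exact (eq_of_fr k (pre_succ_le (a + n) i) this.ge).symm
  rw [h1 (socleDegree A + 1)]
  exact pre_large (by omega)

lemma socle_spec [FiniteDimensional k A] :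
    maximalIdeal A ^ socleDegree A ≠ ⊥ ∧ maximalIdeal A ^ (socleDegree A + 1) = ⊥ := by
  have hart : IsArtinianRing A := IsArtinianRing.of_finite k A
  obtain ⟨N, hN⟩ : ∃ N, maximalIdeal A ^ N = ⊥ := by
    have := IsArtinianRing.isNilpotent_jacobson_bot (R := A)
    rw [IsLocalRing.jacobson_eq_maximalIdeal ⊥ bot_ne_top] at this
    exact this
  have hb : BddAbove {i : ℕ | maximalIdeal A ^ i ≠ ⊥} := by
    refine ⟨N, fun i hi => ?_⟩
    by_contra hlt
    push Not at hlt
    exact hi (eq_bot_iff.2 ((Ideal.pow_le_pow_right hlt.le).trans hN.le))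
  have hne : {i : ℕ | maximalIdeal A ^ i ≠ ⊥}.Nonempty := ⟨0, by simp⟩
  refine ⟨Nat.sSup_mem hne hb, ?_⟩
  by_contra h
  have := le_csSup hb (show socleDegree A + 1 ∈ {i : ℕ | maximalIdeal A ^ i ≠ ⊥} from h)
  unfold socleDegree at this
  omega

lemma socle_unique [FiniteDimensional k A] {n : ℕ} (h1 : maximalIdeal A ^ n ≠ ⊥)
    (h2 : maximalIdeal A ^ (n + 1) = ⊥) : socleDegree A = n := by
  obtain ⟨g1, g2⟩ := socle_spec (A := A) k
  rcases lt_trichotomy (socleDegree A) n with h | h | h
  · exact absurd (eq_bot_iff.2 ((Ideal.pow_le_pow_right (by omega)).trans g2.le)) h1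
  · exact h
  · exact absurd (eq_bot_iff.2 ((Ideal.pow_le_pow_right (by omega)).trans h2.le)) g1

lemma pre_zero [FiniteDimensional k A] (i : ℕ) : pre A 0 i = maximalIdeal A ^ i := by
  apply le_antisymm (pre_le_pow 0 i)
  rcases Nat.lt_or_ge (socleDegree A) i with h | h
  · have : maximalIdeal A ^ i = ⊥ :=
      eq_bot_iff.2 ((Ideal.pow_le_pow_right (by omega)).trans (socle_spec (A := A) k).2.le)
    rw [this]; exact bot_le
  · refine le_sup_of_le_left (le_inf (fun b hb => mem_loewy.2 fun w hw => ?_) le_rfl)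
    have h2 : b * w ∈ maximalIdeal A ^ (i + (socleDegree A + 1 - 0 - i)) := pmul hb hw
    have h3 : i + (socleDegree A + 1 - 0 - i) = socleDegree A + 1 := by omega
    rw [h3, (socle_spec (A := A) k).2] at h2
    simpa using h2

lemma hilb_top [FiniteDimensional k A] : 0 < hilb A k 0 (socleDegree A) := by
  have h := hilb_add (A := A) k 0 (socleDegree A)
  rw [pre_zero k, pre_large (by omega), (socle_spec (A := A) k).2] at h
  have h2 : 0 < fr k (maximalIdeal A ^ socleDegree A) := by
    by_contra h0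
    have h3 : fr k (maximalIdeal A ^ socleDegree A) ≤ fr k (⊥ : Ideal A) := by omega
    exact (socle_spec (A := A) k).1 (eq_of_fr k bot_le h3).symm
  have h4 : fr k (⊥ : Ideal A) = 0 := by
    have : (⊥ : Ideal A).restrictScalars k = ⊥ := by ext; simp
    unfold fr
    rw [this, finrank_bot]
  omega

lemma hilb_above [FiniteDimensional k A] {i : ℕ} (hi : socleDegree A < i) : hilb A k 0 i = 0 := by
  have h := hilb_add (A := A) k 0 i
  have h1 : maximalIdeal A ^ i = ⊥ :=
      eq_bot_iff.2 ((Ideal.pow_le_pow_right (by omega)).trans (socle_spec (A := A) k).2.le)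
  have h2 := fr_mono k (pre_le_pow (A := A) 0 i)
  rw [h1] at h2
  have h4 : fr k (⊥ : Ideal A) = 0 := by
    have : (⊥ : Ideal A).restrictScalars k = ⊥ := by ext; simp
    unfold fr
    rw [this, finrank_bot]
  omega

lemma socle_eq {B : Type*} [CommRing B] [IsLocalRing B] [Algebra k B] [FiniteDimensional k A]
    [FiniteDimensional k B] (h : ∀ i, hilb A k 0 i = hilb B k 0 i) : socleDegree A = socleDegree B := by
  rcases lt_trichotomy (socleDegree A) (socleDegree B) with g | g | g
  · have h1 := hilb_above (A := A) k g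
    have h2 := hilb_top (A := B) k
    rw [h] at h1; omega
  · exact g
  · have h1 := hilb_above (A := B) k g
    have h2 := hilb_top (A := A) k
    rw [h] at h2; omega

/-- **Non-existence.** -/
theorem nonexist [FiniteDimensional k A] (h8 : socleDegree A = 8) (h01 : hilb A k 0 1 ≤ 2)
    (h3 : ∀ u, 1 ≤ u → hilb A k u 3 = 0) (h5 : ∀ u, 2 ≤ u → hilb A k u 5 = 0)
    (h2 : ∀ u, 2 ≤ u → hilb A k u 2 = 0) (h56 : 6 ≤ hilb A k 0 5 + hilb A k 1 5)
    (h24 : 4 ≤ hilb A k 0 2 + hilb A k 1 2) : False := by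
  set m := maximalIdeal A with hm
  have h9 : m ^ 9 = ⊥ := by have := (socle_spec (A := A) k).2; rwa [h8] at this
  have hE1 := hilb_add (A := A) k 0 1
  have hE11 : pre A 1 1 = loewy A 7 ⊓ m ^ 1 ⊔ m ^ 2 := by unfold pre; rw [h8]
  rw [pre_zero k] at hE1
  obtain ⟨x, hx, y, hy, hxy⟩ := two_gens ((pre A 1 1).restrictScalars k) ((m ^ 1).restrictScalars k)
    (pre_le_pow 1 1) (by
      have hE1' : hilb A k 0 1 + fr k (pre A 1 1) = fr k (m ^ 1) := hE1
      have : fr k (m ^ 1) ≤ fr k (pre A 1 1) + 2 := by rw [← hE1']; omega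
      exact this)
  rw [pow_one] at hx hy hxy
  have H : Hyp m x y k := by
    refine ⟨hx, hy, fun w hw => ?_, fun b hb => ?_, fun b hb hw => ?_, fun b hb hw => ?_⟩
    · rw [h9] at hw; simpa using hw
    · obtain ⟨c1, c2, hc⟩ := hxy b hb
      have hc' : b - (c1 • x + c2 • y) ∈ pre A 1 1 := hc
      rw [hE11] at hc'
      obtain ⟨z, hz, w, hw, hzw⟩ := Submodule.mem_sup.1 hc'
      rw [pow_one] at hz
      refine ⟨c1, c2, z, hz.2, mem_loewy.1 hz.1, w, hw, ?_⟩
      linear_combination -hzw
    · have e := pre_eq_of_zero k h3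
      rw [show (3:ℕ) + 1 = 4 by norm_num] at e
      rw [← hm] at e
      rw [← e]
      unfold pre
      rw [h8]
      exact Submodule.mem_sup_left ⟨mem_loewy.2 hw, hb⟩
    · have e := pre_eq_of_zero k h2
      rw [show (2:ℕ) + 1 = 3 by norm_num] at e
      rw [← hm] at e
      rw [← e]
      unfold pre
      rw [h8]
      exact Submodule.mem_sup_left ⟨mem_loewy.2 hw, hb⟩
  have hI : Ind m x y k := by
    intro c0 c1 c2 c3 c4 c5 hc
    have e5 := pre_eq_of_zero k h5
    have a1 := hilb_add (A := A) k 0 5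
    have a2 := hilb_add (A := A) k 1 5
    rw [pre_zero k] at a1
    rw [show 1 + 1 = 2 by norm_num, e5] at a2
    have hfr : fr k (m ^ 6) + 6 ≤ fr k (m ^ 5) := by
      have a1' : hilb A k 0 5 + fr k (pre A 1 5) = fr k (m ^ 5) := a1
      have a2' : hilb A k 1 5 + fr k (m ^ 6) = fr k (pre A 1 5) := a2
      omega
    have := indep ((m ^ 6).restrictScalars k) ((m ^ 5).restrictScalars k)
      ![x ^ 5, x ^ 4 * y, x ^ 3 * y ^ 2, x ^ 2 * y ^ 3, x * y ^ 4, y ^ 5] (by
        intro b hb
        obtain ⟨p0, p1, p2, p3, p4, p5, w, hw, rfl⟩ := qnt_form H hb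
        have hsub : ∀ i, ![x ^ 5, x ^ 4 * y, x ^ 3 * y ^ 2, x ^ 2 * y ^ 3, x * y ^ 4, y ^ 5] i ∈
            Submodule.span k (Set.range ![x ^ 5, x ^ 4 * y, x ^ 3 * y ^ 2, x ^ 2 * y ^ 3, x * y ^ 4, y ^ 5]) :=
          fun i => Submodule.subset_span ⟨i, rfl⟩
        refine add_mem (Submodule.mem_sup_right ?_) (Submodule.mem_sup_left hw)
        exact add_mem (add_mem (add_mem (add_mem (add_mem (Submodule.smul_mem _ _ (hsub 0))
          (Submodule.smul_mem _ _ (hsub 1))) (Submodule.smul_mem _ _ (hsub 2)))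
          (Submodule.smul_mem _ _ (hsub 3))) (Submodule.smul_mem _ _ (hsub 4)))
          (Submodule.smul_mem _ _ (hsub 5))) hfr ![c0, c1, c2, c3, c4, c5] (by
        simp only [Fin.sum_univ_succ, Finset.univ_eq_empty, Finset.sum_empty]
        simp only [Matrix.cons_val_zero, Matrix.cons_val_succ]
        have e : c0 • x ^ 5 + (c1 • (x ^ 4 * y) + (c2 • (x ^ 3 * y ^ 2) + (c3 • (x ^ 2 * y ^ 3) +
            (c4 • (x * y ^ 4) + (c5 • y ^ 5 + 0))))) = c0 • x ^ 5 + c1 • (x ^ 4 * y) + c2 • (x ^ 3 * y ^ 2) +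
            c3 • (x ^ 2 * y ^ 3) + c4 • (x * y ^ 4) + c5 • y ^ 5 := by ring
        rw [e]
        exact hc)
    exact ⟨this 0, this 1, this 2, this 3, this 4, this 5⟩
  have e2 := pre_eq_of_zero k h2
  have a1 := hilb_add (A := A) k 0 2
  have a2 := hilb_add (A := A) k 1 2
  rw [pre_zero k] at a1
  rw [show 1 + 1 = 2 by norm_num, e2] at a2
  have hfr : fr k (m ^ 3) + 4 ≤ fr k (m ^ 2) := by
    have a1' : hilb A k 0 2 + fr k (pre A 1 2) = fr k (m ^ 2) := a1
    have a2' : hilb A k 1 2 + fr k (m ^ 3) = fr k (pre A 1 2) := a2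
    omega
  have := finrank_sup_span ((m ^ 3).restrictScalars k) ((m ^ 2).restrictScalars k)
    ![x ^ 2, x * y, y ^ 2] (by
      intro b hb
      obtain ⟨p0, p1, p2, hw⟩ := key H hI hb
      have hsub : ∀ i, ![x ^ 2, x * y, y ^ 2] i ∈ Submodule.span k (Set.range ![x ^ 2, x * y, y ^ 2]) :=
          fun i => Submodule.subset_span ⟨i, rfl⟩
      have e : b = (p0 • x ^ 2 + p1 • (x * y) + p2 • y ^ 2) + (b - (p0 • x ^ 2 + p1 • (x * y) + p2 • y ^ 2)) := by
        ring
      rw [e]
      refine add_mem (Submodule.mem_sup_right ?_) (Submodule.mem_sup_left hw)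
      exact add_mem (add_mem (Submodule.smul_mem _ _ (hsub 0))
          (Submodule.smul_mem _ _ (hsub 1))) (Submodule.smul_mem _ _ (hsub 2)))
  have hfr' : finrank k ↥((m ^ 3).restrictScalars k) + 4 ≤ finrank k ↥((m ^ 2).restrictScalars k) := hfr
  omega

end loc

end Q37.NU
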