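import Pool.Agent.Q37.NU.Ord
import Pool.Agent.Q37.NU.Gen

/-! # Non-ubiquity: the example `F = X⁴Y⁴ + Z (X⁶ + Y⁶) + ∑ Z_l²` -/

set_option autoImplicit false

namespace Q37.NU

open IsLocalRing MvPowerSeries Finset

section exps

variable {r : ℕ}

/-- the exponent of `x ^ a y ^ b z ^ c` -/
noncomputable def vv (hr : 3 ≤ r) (a b c : ℕ) : Fin r →₀ ℕ :=
  Finsupp.single ⟨0, by omega⟩ a + Finsupp.single ⟨1, by omega⟩ b + Finsupp.single ⟨2, by omega⟩ c

variable (hr : 3 ≤ r)

lemma vv_apply (a b c : ℕ) (l : Fin r) :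
    vv hr a b c l = if l.val = 0 then a else if l.val = 1 then b else if l.val = 2 then c else 0 := by
  unfold vv
  simp only [Finsupp.add_apply, Finsupp.single_apply, Fin.ext_iff]
  rcases Nat.lt_or_ge l.val 3 with h | h
  · interval_cases h' : l.val <;> simp
  · rw [if_neg (by omega), if_neg (by omega), if_neg (by omega), if_neg (by omega), if_neg (by omega),
      if_neg (by omega)]
    rfl

lemma vv_le {a b c a' b' c' : ℕ} : vv hr a b c ≤ vv hr a' b' c' ↔ a ≤ a' ∧ b ≤ b' ∧ c ≤ c' := by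
  constructor
  · intro h
    have h0 := h ⟨0, by omega⟩
    have h1 := h ⟨1, by omega⟩
    have h2 := h ⟨2, by omega⟩
    simp only [vv_apply] at h0 h1 h2
    simpa using ⟨h0, h1, h2⟩
  · rintro ⟨h0, h1, h2⟩ l
    simp only [vv_apply]
    split_ifs <;> omega

lemma vv_sub (a b c a' b' c' : ℕ) : vv hr a' b' c' - vv hr a b c = vv hr (a' - a) (b' - b) (c' - c) := by
  ext l
  simp only [Finsupp.tsub_apply, vv_apply]
  split_ifs <;> omega

lemma vv_add (a b c a' b' c' : ℕ) : vv hr a b c + vv hr a' b' c' = vv hr (a + a') (b + b') (c + c') := by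
  ext l
  simp only [Finsupp.add_apply, vv_apply]
  split_ifs <;> omega

lemma vv_inj {a b c a' b' c' : ℕ} : vv hr a b c = vv hr a' b' c' ↔ a = a' ∧ b = b' ∧ c = c' := by
  constructor
  · intro h
    have h1 := (vv_le hr).1 h.le
    have h2 := (vv_le hr).1 h.ge
    omega
  · rintro ⟨rfl, rfl, rfl⟩; rfl

lemma vv_zero : vv hr 0 0 0 = 0 := by
  ext l; simp [vv_apply]

lemma vv_le_single {a b c : ℕ} {l : Fin r} (hl : 3 ≤ l.val) :
    vv hr a b c ≤ Finsupp.single l 2 ↔ a = 0 ∧ b = 0 ∧ c = 0 := by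
  constructor
  · intro h
    have h0 : a ≤ 0 := by
      simpa [vv_apply, Finsupp.single_apply, Fin.ext_iff, show ¬ l.val = 0 by omega] using h ⟨0, by omega⟩
    have h1 : b ≤ 0 := by
      simpa [vv_apply, Finsupp.single_apply, Fin.ext_iff, show ¬ l.val = 1 by omega] using h ⟨1, by omega⟩
    have h2 : c ≤ 0 := by
      simpa [vv_apply, Finsupp.single_apply, Fin.ext_iff, show ¬ l.val = 2 by omega] using h ⟨2, by omega⟩
    omega
  · rintro ⟨rfl, rfl, rfl⟩
    rw [vv_zero]; exact zero_le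

lemma deg_vv (a b c : ℕ) : (vv hr a b c).degree = a + b + c := by
  unfold vv
  rw [map_add, map_add, Finsupp.degree_single, Finsupp.degree_single, Finsupp.degree_single]

lemma of_le {p : Fin r →₀ ℕ} {a b c : ℕ} (h : p ≤ vv hr a b c) :
    ∃ i j l, p = vv hr i j l ∧ i ≤ a ∧ j ≤ b ∧ l ≤ c := by
  refine ⟨p ⟨0, by omega⟩, p ⟨1, by omega⟩, p ⟨2, by omega⟩, ?_, ?_, ?_, ?_⟩
  · ext l
    rw [vv_apply]
    split_ifs with h0 h1 h2
    · congr 1; exact Fin.ext h0
    · congr 1; exact Fin.ext h1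
    · congr 1; exact Fin.ext h2
    · have := h l
      rw [vv_apply, if_neg h0, if_neg h1, if_neg h2] at this
      omega
  · have := h ⟨0, by omega⟩; simpa [vv_apply] using this
  · have := h ⟨1, by omega⟩; simpa [vv_apply] using this
  · have := h ⟨2, by omega⟩; simpa [vv_apply] using this

end exps

section phi

variable (k : Type*) [Field k] {r : ℕ} (hr : 3 ≤ r)

/-- the indices of the further variables -/
def far (r : ℕ) : Finset (Fin r) := Finset.univ.filter fun l => 3 ≤ l.val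

/-- the dual generator as a functional -/
noncomputable def phi : PS k r →ₗ[k] k :=
  coeff (vv hr 4 4 0) + coeff (vv hr 6 0 1) + coeff (vv hr 0 6 1) +
    ∑ l ∈ far r, coeff (Finsupp.single l 2)

lemma phi_apply (f : PS k r) : phi k hr f =
    coeff (vv hr 4 4 0) f + coeff (vv hr 6 0 1) f + coeff (vv hr 0 6 1) f +
      ∑ l ∈ far r, coeff (Finsupp.single l 2) f := by
  unfold phi
  simp [LinearMap.add_apply, LinearMap.sum_apply]

lemma phi_mono (a b c : ℕ) (g : PS k r) : phi k hr (monomial (vv hr a b c) 1 * g) =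
    (if a ≤ 4 ∧ b ≤ 4 ∧ c ≤ 0 then coeff (vv hr (4 - a) (4 - b) (0 - c)) g else 0) +
    (if a ≤ 6 ∧ b ≤ 0 ∧ c ≤ 1 then coeff (vv hr (6 - a) (0 - b) (1 - c)) g else 0) +
    (if a ≤ 0 ∧ b ≤ 6 ∧ c ≤ 1 then coeff (vv hr (0 - a) (6 - b) (1 - c)) g else 0) +
    (if a = 0 ∧ b = 0 ∧ c = 0 then ∑ l ∈ far r, coeff (Finsupp.single l 2) g else 0) := by
  rw [phi_apply]
  simp only [coeff_monomial_mul, one_mul, vv_le, vv_sub]
  congr 1
  split_ifs with h
  · obtain ⟨rfl, rfl, rfl⟩ := h
    refine Finset.sum_congr rfl fun l _ => ?_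
    rw [vv_zero, if_pos (zero_le), tsub_zero]
  · refine Finset.sum_eq_zero fun l hl => ?_
    rw [if_neg]
    rw [vv_le_single hr (Finset.mem_filter.1 hl).2]
    exact h

lemma phi_ord {f : PS k r} (hf : f ∈ Ord k r 9) : phi k hr f = 0 := by
  rw [phi_apply, hf _ (by rw [deg_vv]; norm_num), hf _ (by rw [deg_vv]; norm_num),
    hf _ (by rw [deg_vv]; norm_num), Finset.sum_eq_zero fun l _ => hf _ (by rw [Finsupp.degree_single]; norm_num)]
  ring

/-- for series of order at least `8` only the coefficient of `x⁴y⁴` counts -/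
lemma phi_ord8 {f : PS k r} (hf : f ∈ Ord k r 8) : phi k hr f = coeff (vv hr 4 4 0) f := by
  rw [phi_apply, hf (vv hr 6 0 1) (by rw [deg_vv]; norm_num),
    hf (vv hr 0 6 1) (by rw [deg_vv]; norm_num), Finset.sum_eq_zero fun l _ => hf _ (by rw [Finsupp.degree_single]; norm_num)]
  ring

/-- for series of order at least `7` only three coefficients count -/
lemma phi_ord7 {f : PS k r} (hf : f ∈ Ord k r 7) : phi k hr f =
    coeff (vv hr 4 4 0) f + coeff (vv hr 6 0 1) f + coeff (vv hr 0 6 1) f := by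
  rw [phi_apply, Finset.sum_eq_zero fun l _ => hf _ (by rw [Finsupp.degree_single]; norm_num)]
  ring

/-- the annihilator of the dual generator -/
def II : Ideal (PS k r) where
  carrier := {f | ∀ g, phi k hr (f * g) = 0}
  zero_mem' := fun g => by rw [zero_mul, map_zero]
  add_mem' := fun {f f'} hf hf' g => by rw [add_mul, map_add, hf g, hf' g, add_zero]
  smul_mem' := fun c f hf g => by
    rw [smul_eq_mul, mul_comm c f, mul_assoc]; exact hf _

lemma mem_II {f : PS k r} : f ∈ II k hr ↔ ∀ g, phi k hr (f * g) = 0 := Iff.rfl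

lemma ord_le_II : Ord k r 9 ≤ II k hr := fun f hf g => phi_ord k hr (by
  have := Ord_mul hf (show g ∈ Ord k r 0 from fun b hb => by omega)
  simpa using this)

lemma one_not_mem : (1 : PS k r) ∉ II k hr := by
  intro h
  have h1 := h (monomial (vv hr 4 4 0) 1 * 1)
  rw [one_mul, phi_mono] at h1
  simp [vv_zero] at h1

instance : Nontrivial (PS k r ⧸ II k hr) :=
  Ideal.Quotient.nontrivial_iff.2 ((Ideal.ne_top_iff_one _).2 (one_not_mem k hr))

instance : IsLocalRing (PS k r ⧸ II k hr) :=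
  IsLocalRing.of_surjective' (Ideal.Quotient.mk _) Ideal.Quotient.mk_surjective

/-- the algebra -/
abbrev AA : Type _ := PS k r ⧸ II k hr

/-- the quotient map -/
noncomputable abbrev qm (f : PS k r) : AA k hr := Ideal.Quotient.mk (II k hr) f

lemma mem_loewy_qm {s : ℕ} {f : PS k r} : qm k hr f ∈ loewy (AA k hr) s ↔ ∀ g ∈ Ord k r s, phi k hr (f * g) = 0 := by
  rw [mem_loewy]
  constructor
  · intro h g hg
    have h1 := h (qm k hr g) (mem_pow_quot.2 ⟨g, hg, rfl⟩)
    rw [← map_mul, Ideal.Quotient.eq_zero_iff_mem] at h1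
    have := h1 1
    rwa [mul_one] at this
  · intro h w hw
    obtain ⟨g, hg, rfl⟩ := mem_pow_quot.1 hw
    rw [← map_mul, Ideal.Quotient.eq_zero_iff_mem]
    intro t
    rw [mul_assoc]
    exact h _ (Ideal.mul_mem_right _ _ hg)

lemma qm_pow {i : ℕ} {f : PS k r} (hf : f ∈ Ord k r i) : qm k hr f ∈ maximalIdeal (AA k hr) ^ i :=
  mem_pow_quot.2 ⟨f, hf, rfl⟩

lemma mono_ord {b : Fin r →₀ ℕ} {i : ℕ} (h : i ≤ b.degree) (c : k) : monomial b c ∈ Ord k r i := by
  intro p hp
  rw [coeff_monomial, if_neg]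
  rintro rfl
  omega

lemma pow9 : maximalIdeal (AA k hr) ^ 9 = ⊥ := by
  rw [eq_bot_iff]
  intro a ha
  obtain ⟨f, hf, rfl⟩ := mem_pow_quot.1 ha
  exact Ideal.Quotient.eq_zero_iff_mem.2 (ord_le_II k hr hf)

lemma phi_top : phi k hr (monomial (vv hr 4 4 0) 1) = 1 := by
  have := phi_mono k hr 4 4 0 1
  rw [mul_one] at this
  rw [this]
  simp [vv_zero]

lemma qm_top_ne : qm k hr (monomial (vv hr 4 4 0) 1) ≠ 0 := by
  intro h
  have h1 := (Ideal.Quotient.eq_zero_iff_mem.1 h) 1
  rw [mul_one, phi_top] at h1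
  exact one_ne_zero h1

lemma pow8 : maximalIdeal (AA k hr) ^ 8 ≠ ⊥ := by
  intro h
  have h1 : qm k hr (monomial (vv hr 4 4 0) 1) ∈ maximalIdeal (AA k hr) ^ 8 :=
    qm_pow k hr (mono_ord k (by rw [deg_vv]) 1)
  rw [h] at h1
  exact qm_top_ne k hr (by simpa using h1)

instance fin_dim : FiniteDimensional k (AA k hr) := by
  classical
  have hfin : {b : Fin r →₀ ℕ | b.degree ≤ 8}.Finite := Finsupp.finite_of_degree_le 8
  refine ⟨⟨hfin.toFinset.image fun b => qm k hr (monomial b 1), ?_⟩⟩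
  rw [eq_top_iff]
  rintro a -
  obtain ⟨f, rfl⟩ := Ideal.Quotient.mk_surjective a
  have h1 : qm k hr f = ∑ b ∈ hfin.toFinset, coeff b f • qm k hr (monomial b 1) := by
    have h2 : f - ∑ b ∈ hfin.toFinset, coeff b f • monomial b (1 : k) ∈ II k hr := by
      apply ord_le_II
      intro b hb
      rw [map_sub, map_sum]
      simp only [map_smul, coeff_monomial, smul_eq_mul, mul_ite, mul_one, mul_zero]
      rw [Finset.sum_ite_eq, if_pos, sub_self]
      rw [Set.Finite.mem_toFinset]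
      show b.degree ≤ 8
      omega
    have h3 := Ideal.Quotient.eq_zero_iff_mem.2 h2
    rw [map_sub, sub_eq_zero] at h3
    rw [show qm k hr f = Ideal.Quotient.mk (II k hr) f from rfl, h3, map_sum]
    rfl
  rw [show Ideal.Quotient.mk (II k hr) f = qm k hr f from rfl, h1]
  refine Submodule.sum_mem _ fun b hb => Submodule.smul_mem _ _ (Submodule.subset_span ?_)
  rw [Finset.coe_image]
  exact ⟨b, hb, rfl⟩

lemma sd : socleDegree (AA k hr) = 8 := socle_unique k (pow8 k hr) (pow9 k hr)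

/-- the algebra is Artinian Gorenstein -/
lemma isAG : IsAG (AA k hr) k := by
  refine ⟨IsArtinianRing.of_finite k (AA k hr), ?_⟩
  have hs : qm k hr (monomial (vv hr 4 4 0) 1) ∈ loewy (AA k hr) 1 := by
    rw [mem_loewy_qm]
    intro g hg
    exact phi_ord k hr (Ord_mul (mono_ord k (by rw [deg_vv] : 8 ≤ (vv hr 4 4 0).degree) 1) hg)
  refine finrank_eq_one (⟨qm k hr (monomial (vv hr 4 4 0) 1), hs⟩ : loewy (AA k hr) 1)
    (fun h => qm_top_ne k hr (congrArg Subtype.val h)) ?_
  rintro ⟨a, ha⟩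
  obtain ⟨f, rfl⟩ := Ideal.Quotient.mk_surjective a
  refine ⟨phi k hr f, Subtype.ext ?_⟩
  show phi k hr f • qm k hr (monomial (vv hr 4 4 0) 1) = qm k hr f
  have ha' := (mem_loewy_qm k hr).1 ha
  have h2 : phi k hr f • monomial (vv hr 4 4 0) (1 : k) - f ∈ II k hr := by
    intro g
    have hg : g = C (constantCoeff g) + (g - C (constantCoeff g)) := by ring
    have hg1 : g - C (constantCoeff g) ∈ Ord k r 1 := by
      intro b hb
      have : b = 0 := by rw [← Finsupp.degree_eq_zero_iff]; omega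
      rw [this]; simp
    have e1 : phi k hr (f * g) = constantCoeff g * phi k hr f := by
      conv_lhs => rw [hg]
      rw [mul_add, map_add, ha' _ hg1, add_zero, mul_comm, ← smul_eq_C_mul, map_smul, smul_eq_mul]
    have e2 : phi k hr (monomial (vv hr 4 4 0) (1 : k) * g) = constantCoeff g := by
      rw [phi_mono]
      simp [vv_zero]
    rw [sub_mul, map_sub, e1, smul_mul_assoc, map_smul, e2, smul_eq_mul]
    ring
  have h3 := Ideal.Quotient.eq_zero_iff_mem.2 h2
  rw [map_sub, sub_eq_zero] at h3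
  exact h3

end phi

end Q37.NU
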