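import Pool.Agent.Q37.NU.Ex

/-! # Non-ubiquity: the partial decomposition of the example, and the main theorem -/

set_option autoImplicit false

namespace Q37.NU

open IsLocalRing MvPowerSeries Finset Module

section ex

variable (k : Type*) [Field k] {r : ℕ} (hr : 3 ≤ r)

/-- the monomial `x ^ a y ^ b z ^ c` -/
noncomputable abbrev mo (a b c : ℕ) : PS k r := monomial (vv hr a b c) (1 : k)

lemma mo_ord {a b c i : ℕ} (h : i ≤ a + b + c) : mo k hr a b c ∈ Ord k r i :=
  mono_ord k (by rw [deg_vv]; exact h) 1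

lemma mo_mul (a b c a' b' c' : ℕ) : mo k hr a b c * mo k hr a' b' c' = mo k hr (a + a') (b + b') (c + c') := by
  rw [monomial_mul_monomial, vv_add, one_mul]

lemma phi_mo (a b c : ℕ) : phi k hr (mo k hr a b c) =
    if (a = 4 ∧ b = 4 ∧ c = 0) ∨ (a = 6 ∧ b = 0 ∧ c = 1) ∨ (a = 0 ∧ b = 6 ∧ c = 1) then 1 else 0 := by
  rw [phi_apply]
  simp only [coeff_monomial, vv_inj]
  rw [Finset.sum_eq_zero]
  · by_cases h1 : a = 4 ∧ b = 4 ∧ c = 0
    · obtain ⟨rfl, rfl, rfl⟩ := h1; simp
    · by_cases h2 : a = 6 ∧ b = 0 ∧ c = 1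
      · obtain ⟨rfl, rfl, rfl⟩ := h2; simp
      · by_cases h3 : a = 0 ∧ b = 6 ∧ c = 1
        · obtain ⟨rfl, rfl, rfl⟩ := h3; simp
        · rw [if_neg (by omega), if_neg (by omega), if_neg (by omega), if_neg (by omega)]; ring
  · intro l hl
    rw [if_neg]
    intro h
    have h3 := (Finset.mem_filter.1 hl).2
    have := congrArg (fun t => t l) h
    simp only [Finsupp.single_eq_same] at this
    rw [vv_apply, if_neg (by omega), if_neg (by omega), if_neg (by omega)] at this
    omega

lemma sd1 (a i : ℕ) : pre (AA k hr) a i =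
    loewy (AA k hr) (9 - a - i) ⊓ maximalIdeal (AA k hr) ^ i ⊔ maximalIdeal (AA k hr) ^ (i + 1) := by
  unfold pre; rw [sd k hr]

lemma h01 : hilb (AA k hr) k 0 1 ≤ 2 := by
  have h := hilb_add (A := AA k hr) k 0 1
  rw [pre_zero k] at h
  have h2 := finrank_sup_span ((pre (AA k hr) 1 1).restrictScalars k)
    ((maximalIdeal (AA k hr) ^ 1).restrictScalars k) ![qm k hr (mo k hr 1 0 0), qm k hr (mo k hr 0 1 0)] (by
      intro b hb
      obtain ⟨f, hf, rfl⟩ := mem_pow_quot.1 hb
      have hsub : ∀ i, ![qm k hr (mo k hr 1 0 0), qm k hr (mo k hr 0 1 0)] i ∈ Submodule.span k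
        (Set.range ![qm k hr (mo k hr 1 0 0), qm k hr (mo k hr 0 1 0)]) := fun i => Submodule.subset_span ⟨i, rfl⟩
      set g := f - coeff (vv hr 1 0 0) f • mo k hr 1 0 0 - coeff (vv hr 0 1 0) f • mo k hr 0 1 0 with hg
      have hg1 : g ∈ Ord k r 1 := by
        refine sub_mem (sub_mem hf ?_) ?_
        · rw [smul_eq_C_mul]; exact Ideal.mul_mem_left _ _ (mo_ord k hr (by norm_num))
        · rw [smul_eq_C_mul]; exact Ideal.mul_mem_left _ _ (mo_ord k hr (by norm_num))
      have hg2 : coeff (vv hr 1 0 0) g = 0 := by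
        rw [hg]; simp [coeff_monomial, vv_inj]
      have hg3 : coeff (vv hr 0 1 0) g = 0 := by
        rw [hg]; simp [coeff_monomial, vv_inj]
      have hgl : qm k hr g ∈ pre (AA k hr) 1 1 := by
        rw [sd1]
        refine Submodule.mem_sup_left ⟨?_, qm_pow k hr hg1⟩
        rw [show 9 - 1 - 1 = 7 by norm_num]
        refine (mem_loewy_qm k hr).2 fun w hw => ?_
        rw [phi_ord8 k hr (by have := Ord_mul hg1 hw; simpa using this)]
        refine coeff_mul_zero fun p q hpq => ?_
        by_cases hq : q.degree < 7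
        · exact Or.inr (hw q hq)
        · left
          have hd := congrArg Finsupp.degree hpq
          rw [map_add, deg_vv] at hd
          obtain ⟨i, j, l, rfl, hi, hj, hl⟩ := of_le hr (p := p) (a := 4) (b := 4) (c := 0) (by
            rw [← hpq]; exact le_add_right le_rfl)
          rw [deg_vv] at hd
          have hl0 : l = 0 := by omega
          subst hl0
          rcases Nat.eq_zero_or_pos i with hi0 | hi0
          · rcases Nat.eq_zero_or_pos j with hj0 | hj0
            · subst hi0 hj0
              exact hg1 _ (by rw [deg_vv]; norm_num)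
            · have : i = 0 ∧ j = 1 := by omega
              rw [this.1, this.2]; exact hg3
          · have : i = 1 ∧ j = 0 := by omega
            rw [this.1, this.2]; exact hg2
      have e : (Ideal.Quotient.mk (II k hr)) f = qm k hr g + (coeff (vv hr 1 0 0) f • qm k hr (mo k hr 1 0 0) +
          coeff (vv hr 0 1 0) f • qm k hr (mo k hr 0 1 0)) := by
        have : f = g + (coeff (vv hr 1 0 0) f • mo k hr 1 0 0 + coeff (vv hr 0 1 0) f • mo k hr 0 1 0) := by
          rw [hg]; ring
        conv_lhs => rw [this]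
        rw [map_add, map_add]
        rfl
      rw [e]
      refine add_mem (Submodule.mem_sup_left hgl) (Submodule.mem_sup_right ?_)
      exact add_mem (Submodule.smul_mem _ _ (hsub 0)) (Submodule.smul_mem _ _ (hsub 1)))
  have h' : hilb (AA k hr) k 0 1 + finrank k ↥((pre (AA k hr) 1 1).restrictScalars k) =
    finrank k ↥((maximalIdeal (AA k hr) ^ 1).restrictScalars k) := h
  omega

lemma h13 : hilb (AA k hr) k 1 3 = 0 := by
  have h := hilb_add (A := AA k hr) k 1 3
  have hle : pre (AA k hr) 1 3 ≤ pre (AA k hr) 2 3 := by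
    rw [sd1, sd1, show 9 - 1 - 3 = 5 by norm_num, show 9 - 2 - 3 = 4 by norm_num]
    refine sup_le ?_ le_sup_right
    rintro b ⟨hb5, hb3⟩
    obtain ⟨f, hf, rfl⟩ := mem_pow_quot.1 hb3
    have hb5' := (mem_loewy_qm k hr).1 hb5
    have hc : ∀ i j, i + j = 3 → coeff (vv hr i j 0) f = 0 := by
      intro i j hij
      have h1 := hb5' (mo k hr (4 - i) (4 - j) 0) (mo_ord k hr (by omega))
      rw [mul_comm, phi_mono, if_pos (by omega), if_neg (by omega), if_neg (by omega), if_neg (by omega)] at h1
      have e1 : 4 - (4 - i) = i := by omega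
      have e2 : 4 - (4 - j) = j := by omega
      rw [e1, e2] at h1
      simpa using h1
    set P := coeff (vv hr 2 0 1) f with hP
    set Q := coeff (vv hr 0 2 1) f with hQ
    let f3 : PS k r := fun b => if b.degree = 3 then coeff b f else 0
    have hf3 : ∀ b, coeff b f3 = if b.degree = 3 then coeff b f else 0 := fun b => rfl
    set f2 : PS k r := f3 - P • mo k hr 2 0 1 - Q • mo k hr 0 2 1 with hf2
    have c1 : ∀ b, b.degree ≠ 3 → coeff b f2 = 0 := by
      intro b hb
      rw [hf2, map_sub, map_sub, hf3, if_neg hb, map_smul, map_smul, coeff_monomial, coeff_monomial,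
        if_neg, if_neg]
      · simp
      · rintro rfl; exact hb (by rw [deg_vv])
      · rintro rfl; exact hb (by rw [deg_vv])
    have c2 : ∀ i j, i + j = 3 → coeff (vv hr i j 0) f2 = 0 := by
      intro i j hij
      rw [hf2, map_sub, map_sub, hf3, if_pos (by rw [deg_vv]; omega), hc i j hij, map_smul, map_smul,
        coeff_monomial, coeff_monomial, if_neg (by rw [vv_inj]; omega), if_neg (by rw [vv_inj]; omega)]
      simp
    have c3 : coeff (vv hr 2 0 1) f2 = 0 := by
      rw [hf2, map_sub, map_sub, hf3, if_pos (by rw [deg_vv]), map_smul, map_smul,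
        coeff_monomial, coeff_monomial, if_pos rfl, if_neg (by rw [vv_inj]; omega)]
      simp [hP]
    have c4 : coeff (vv hr 0 2 1) f2 = 0 := by
      rw [hf2, map_sub, map_sub, hf3, if_pos (by rw [deg_vv]), map_smul, map_smul,
        coeff_monomial, coeff_monomial, if_neg (by rw [vv_inj]; omega), if_pos rfl]
      simp [hQ]
    have f2o : f2 ∈ Ord k r 3 := fun b hb => c1 b (by omega)
    set W : PS k r := f2 + (P • (mo k hr 2 0 1 - mo k hr 0 4 0) + Q • (mo k hr 0 2 1 - mo k hr 4 0 0)) with hW
    have hWo : W ∈ Ord k r 3 := by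
      refine add_mem f2o (add_mem ?_ ?_)
      · rw [smul_eq_C_mul]
        exact Ideal.mul_mem_left _ _ (sub_mem (mo_ord k hr (by norm_num)) (mo_ord k hr (by norm_num)))
      · rw [smul_eq_C_mul]
        exact Ideal.mul_mem_left _ _ (sub_mem (mo_ord k hr (by norm_num)) (mo_ord k hr (by norm_num)))
    have hWl : qm k hr W ∈ loewy (AA k hr) 4 := by
      refine (mem_loewy_qm k hr).2 fun g hg => ?_
      have g1 : phi k hr (f2 * g) = 0 := by
        rw [phi_ord7 k hr (by have := Ord_mul f2o hg; simpa using this)]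
        have z1 : coeff (vv hr 4 4 0) (f2 * g) = 0 := by
          refine coeff_mul_zero fun p q hpq => Or.inl ?_
          by_cases hd : p.degree = 3
          · obtain ⟨i, j, l, rfl, hi, hj, hl⟩ := of_le hr (p := p) (a := 4) (b := 4) (c := 0) (by
              rw [← hpq]; exact le_add_right le_rfl)
            rw [deg_vv] at hd
            have hl0 : l = 0 := by omega
            subst hl0
            exact c2 i j (by omega)
          · exact c1 p hd
        have z2 : coeff (vv hr 6 0 1) (f2 * g) = 0 := by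
          refine coeff_mul_zero fun p q hpq => Or.inl ?_
          by_cases hd : p.degree = 3
          · obtain ⟨i, j, l, rfl, hi, hj, hl⟩ := of_le hr (p := p) (a := 6) (b := 0) (c := 1) (by
              rw [← hpq]; exact le_add_right le_rfl)
            rw [deg_vv] at hd
            have hj0 : j = 0 := by omega
            subst hj0
            rcases Nat.eq_zero_or_pos l with hl0 | hl0
            · subst hl0; exact c2 i 0 (by omega)
            · have : i = 2 ∧ l = 1 := by omega
              rw [this.1, this.2]; exact c3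
          · exact c1 p hd
        have z3 : coeff (vv hr 0 6 1) (f2 * g) = 0 := by
          refine coeff_mul_zero fun p q hpq => Or.inl ?_
          by_cases hd : p.degree = 3
          · obtain ⟨i, j, l, rfl, hi, hj, hl⟩ := of_le hr (p := p) (a := 0) (b := 6) (c := 1) (by
              rw [← hpq]; exact le_add_right le_rfl)
            rw [deg_vv] at hd
            have hi0 : i = 0 := by omega
            subst hi0
            rcases Nat.eq_zero_or_pos l with hl0 | hl0
            · subst hl0; exact c2 0 j (by omega)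
            · have : j = 2 ∧ l = 1 := by omega
              rw [this.1, this.2]; exact c4
          · exact c1 p hd
        rw [z1, z2, z3]; ring
      have g2 : phi k hr (mo k hr 2 0 1 * g) = coeff (vv hr 4 0 0) g := by
        rw [phi_mono]; simp
      have g3 : phi k hr (mo k hr 0 4 0 * g) = coeff (vv hr 4 0 0) g := by
        rw [phi_mono]
        have : coeff (vv hr 0 2 1) g = 0 := hg _ (by rw [deg_vv]; norm_num)
        simp [this]
      have g4 : phi k hr (mo k hr 0 2 1 * g) = coeff (vv hr 0 4 0) g := by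
        rw [phi_mono]; simp
      have g5 : phi k hr (mo k hr 4 0 0 * g) = coeff (vv hr 0 4 0) g := by
        rw [phi_mono]
        have : coeff (vv hr 2 0 1) g = 0 := hg _ (by rw [deg_vv]; norm_num)
        simp [this]
      have hWg : W * g = f2 * g + (P • (mo k hr 2 0 1 * g - mo k hr 0 4 0 * g) +
          Q • (mo k hr 0 2 1 * g - mo k hr 4 0 0 * g)) := by
        clear_value f2
        rw [hW, add_mul, add_mul, smul_mul_assoc, smul_mul_assoc, sub_mul, sub_mul]
      rw [hWg, map_add, g1, map_add, map_smul, map_smul, map_sub, map_sub, g2, g3, g4, g5]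
      simp
    have hfW : f - W ∈ Ord k r 4 := by
      have e : f - W = (f - f3) + (P • mo k hr 0 4 0 + Q • mo k hr 4 0 0) := by
        rw [hW, hf2]; simp only [smul_sub]; ring
      rw [e]
      refine add_mem ?_ (add_mem ?_ ?_)
      · intro b hb
        rw [map_sub, hf3]
        split_ifs with h3
        · ring
        · rw [hf b (by omega)]; ring
      · rw [smul_eq_C_mul]; exact Ideal.mul_mem_left _ _ (mo_ord k hr (by norm_num))
      · rw [smul_eq_C_mul]; exact Ideal.mul_mem_left _ _ (mo_ord k hr (by norm_num))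
    have e : (Ideal.Quotient.mk (II k hr)) f = qm k hr W + qm k hr (f - W) := by
      rw [← map_add]; congr 1; ring
    rw [e]
    exact add_mem (Submodule.mem_sup_left ⟨hWl, qm_pow k hr hWo⟩) (Submodule.mem_sup_right (qm_pow k hr hfW))
  have h1 := fr_mono k hle
  have h2 : hilb (AA k hr) k 1 3 + fr k (pre (AA k hr) 2 3) = fr k (pre (AA k hr) 1 3) := h
  omega

/-- elements of the ideals `pre` as classes of power series -/
lemma pre_split {a i : ℕ} {f : PS k r} (hf : qm k hr f ∈ pre (AA k hr) a i) :
    ∃ v ∈ Ord k r (i + 1), ∀ g ∈ Ord k r (9 - a - i), phi k hr (f * g) = phi k hr (v * g) := by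
  rw [sd1] at hf
  obtain ⟨u', ⟨hu1, hu2⟩, v', hv', huv⟩ := Submodule.mem_sup.1 hf
  obtain ⟨u, hu, rfl⟩ := mem_pow_quot.1 hu2
  obtain ⟨v, hv, rfl⟩ := mem_pow_quot.1 hv'
  refine ⟨v, hv, fun g hg => ?_⟩
  have h1 := (mem_loewy_qm k hr).1 hu1 g hg
  rw [← map_add] at huv
  have h2 := (Ideal.Quotient.mk_eq_mk_iff_sub_mem _ _).1 huv
  have h3 := h2 g
  rw [sub_mul, add_mul, map_sub, map_add, h1, zero_add, sub_eq_zero] at h3
  exact h3.symm

lemma l5 : fr k (pre (AA k hr) 2 5) + 6 ≤ fr k (maximalIdeal (AA k hr) ^ 5) := by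
  refine lower ((pre (AA k hr) 2 5).restrictScalars k) ((maximalIdeal (AA k hr) ^ 5).restrictScalars k)
    (fun t : Fin 6 => qm k hr (mo k hr (5 - t.val) t.val 0)) (pre_le_pow 2 5)
    (fun t => qm_pow k hr (mo_ord k hr (by omega))) ?_
  intro c hc
  have hc' : qm k hr (∑ t : Fin 6, c t • mo k hr (5 - t.val) t.val 0) ∈ pre (AA k hr) 2 5 := by
    have : qm k hr (∑ t : Fin 6, c t • mo k hr (5 - t.val) t.val 0) =
        ∑ t : Fin 6, c t • qm k hr (mo k hr (5 - t.val) t.val 0) := by
      show Ideal.Quotient.mk (II k hr) _ = _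
      rw [map_sum]; rfl
    rw [this]; exact hc
  obtain ⟨v, hv, hvg⟩ := pre_split k hr hc'
  have key : ∀ a b l, 2 ≤ a + b + l → phi k hr (mo k hr a b l * v) = 0 →
      ∑ t : Fin 6, c t * phi k hr (mo k hr (5 - t.val + a) (t.val + b) (0 + l)) = 0 := by
    intro a b l h1 h2
    have h3 := hvg (mo k hr a b l) (mo_ord k hr (by omega))
    rw [mul_comm v, h2, Finset.sum_mul, map_sum] at h3
    rw [← h3]
    refine Finset.sum_congr rfl fun t _ => ?_
    rw [smul_mul_assoc, map_smul, mo_mul, smul_eq_mul]
  have big : ∀ a b l, 3 ≤ a + b + l → phi k hr (mo k hr a b l * v) = 0 := by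
    intro a b l h
    refine phi_ord k hr ?_
    have := Ord_mul (mo_ord k hr h) hv
    simpa using this
  have k1 := key 0 3 0 (by norm_num) (big _ _ _ (by norm_num))
  have k2 := key 1 2 0 (by norm_num) (big _ _ _ (by norm_num))
  have k3 := key 2 1 0 (by norm_num) (big _ _ _ (by norm_num))
  have k4 := key 3 0 0 (by norm_num) (big _ _ _ (by norm_num))
  have k0 := key 1 0 1 (by norm_num) (by
    rw [phi_mono, hv (vv hr (6 - 1) (0 - 0) (1 - 1)) (by rw [deg_vv]; norm_num)]; simp)
  have k5 := key 0 1 1 (by norm_num) (by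
    rw [phi_mono, hv (vv hr (0 - 0) (6 - 1) (1 - 1)) (by rw [deg_vv]; norm_num)]; simp)
  simp only [phi_mo, Fin.sum_univ_six] at k0 k1 k2 k3 k4 k5
  norm_num at k0 k1 k2 k3 k4 k5
  intro i
  fin_cases i
  · exact k0
  · exact k1
  · exact k2
  · exact k3
  · exact k4
  · exact k5

lemma l2 : fr k (pre (AA k hr) 2 2) + 4 ≤ fr k (maximalIdeal (AA k hr) ^ 2) := by
  refine lower ((pre (AA k hr) 2 2).restrictScalars k) ((maximalIdeal (AA k hr) ^ 2).restrictScalars k)
    (fun t : Fin 4 => qm k hr (mo k hr (![2, 1, 0, 1] t) (![0, 1, 2, 0] t) (![0, 0, 0, 1] t))) (pre_le_pow 2 2)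
    (fun t => qm_pow k hr (mo_ord k hr (by fin_cases t <;> norm_num))) ?_
  intro c hc
  have hc' : qm k hr (∑ t : Fin 4, c t • mo k hr (![2, 1, 0, 1] t) (![0, 1, 2, 0] t) (![0, 0, 0, 1] t)) ∈
      pre (AA k hr) 2 2 := by
    have : qm k hr (∑ t : Fin 4, c t • mo k hr (![2, 1, 0, 1] t) (![0, 1, 2, 0] t) (![0, 0, 0, 1] t)) =
        ∑ t : Fin 4, c t • qm k hr (mo k hr (![2, 1, 0, 1] t) (![0, 1, 2, 0] t) (![0, 0, 0, 1] t)) := by
      show Ideal.Quotient.mk (II k hr) _ = _
      rw [map_sum]; rfl
    rw [this]; exact hc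
  obtain ⟨v, hv, hvg⟩ := pre_split k hr hc'
  have key : ∀ a b l, 5 ≤ a + b + l → phi k hr (mo k hr a b l * v) = 0 →
      ∑ t : Fin 4, c t * phi k hr (mo k hr (![2, 1, 0, 1] t + a) (![0, 1, 2, 0] t + b) (![0, 0, 0, 1] t + l)) = 0 := by
    intro a b l h1 h2
    have h3 := hvg (mo k hr a b l) (mo_ord k hr (by omega))
    rw [mul_comm v, h2, Finset.sum_mul, map_sum] at h3
    rw [← h3]
    refine Finset.sum_congr rfl fun t _ => ?_
    rw [smul_mul_assoc, map_smul, mo_mul, smul_eq_mul]
  have big : ∀ a b l, 6 ≤ a + b + l → phi k hr (mo k hr a b l * v) = 0 := by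
    intro a b l h
    refine phi_ord k hr ?_
    have := Ord_mul (mo_ord k hr h) hv
    simpa using this
  have k0 := key 2 4 0 (by norm_num) (big _ _ _ (by norm_num))
  have k1 := key 3 3 0 (by norm_num) (big _ _ _ (by norm_num))
  have k2 := key 4 2 0 (by norm_num) (big _ _ _ (by norm_num))
  have k3 := key 5 0 0 (by norm_num) (by
    rw [phi_mono, hv (vv hr (6 - 5) (0 - 0) (1 - 0)) (by rw [deg_vv]; norm_num)]; simp)
  simp only [phi_mo, Fin.sum_univ_four] at k0 k1 k2 k3
  simp at k0 k1 k2 k3
  intro i
  fin_cases i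
  · exact k0
  · exact k1
  · exact k2
  · exact k3

/-- the embedding dimension is `r` -/
lemma II_le : II k hr ≤ maximalIdeal (PS k r) ^ 2 := by
  rw [pow_eq]
  intro f hf b hb
  have hz : coeff (vv hr 0 0 0) f = 0 := by
    have := hf (mo k hr 4 4 0)
    rw [mul_comm, phi_mono] at this
    simpa using this
  have h0 : coeff (vv hr 1 0 0) f = 0 := by
    have := hf (mo k hr 3 4 0)
    rw [mul_comm, phi_mono] at this
    simpa using this
  have h1 : coeff (vv hr 0 1 0) f = 0 := by
    have := hf (mo k hr 4 3 0)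
    rw [mul_comm, phi_mono] at this
    simpa using this
  have h2 : coeff (vv hr 0 0 1) f = 0 := by
    have := hf (mo k hr 6 0 0)
    rw [mul_comm, phi_mono] at this
    simpa using this
  by_cases hb0 : b = 0
  · rw [hb0, ← vv_zero hr]; exact hz
  · obtain ⟨l, hl⟩ : ∃ l, b l ≠ 0 := by
      by_contra h
      push Not at h
      exact hb0 (Finsupp.ext h)
    have hle : Finsupp.single l 1 ≤ b := by rw [Finsupp.single_le_iff]; omega
    have hbl : b = Finsupp.single l 1 := by
      have h3 : b - Finsupp.single l 1 = 0 := by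
        rw [← Finsupp.degree_eq_zero_iff]
        have h4 := congrArg Finsupp.degree (tsub_add_cancel_of_le hle)
        rw [map_add, Finsupp.degree_single] at h4
        omega
      have h4 := tsub_add_cancel_of_le hle
      rw [h3, zero_add] at h4
      exact h4.symm
    rw [hbl]
    by_cases hl0 : l.val = 0
    · have : Finsupp.single l 1 = vv hr 1 0 0 := by
        have e : l = ⟨0, by omega⟩ := Fin.ext hl0
        rw [e]; simp [vv]
      rw [this]; exact h0
    by_cases hl1 : l.val = 1
    · have : Finsupp.single l 1 = vv hr 0 1 0 := by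
        have e : l = ⟨1, by omega⟩ := Fin.ext hl1
        rw [e]; simp [vv]
      rw [this]; exact h1
    by_cases hl2 : l.val = 2
    · have : Finsupp.single l 1 = vv hr 0 0 1 := by
        have e : l = ⟨2, by omega⟩ := Fin.ext hl2
        rw [e]; simp [vv]
      rw [this]; exact h2
    have hn : ∀ a b c, ¬ Finsupp.single l 1 ≤ vv hr a b c := by
      intro a b c h
      rw [Finsupp.single_le_iff, vv_apply, if_neg hl0, if_neg hl1, if_neg hl2] at h
      omega
    have h3 := hf (monomial (Finsupp.single l 1) 1)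
    rw [mul_comm, phi_apply] at h3
    simp only [coeff_monomial_mul, one_mul, if_neg (hn _ _ _), zero_add] at h3
    rw [Finset.sum_eq_single l] at h3
    · rw [if_pos (Finsupp.single_mono (by norm_num)), ← Finsupp.single_tsub] at h3
      exact h3
    · intro l' _ hne
      rw [if_neg]
      rw [Finsupp.single_le_iff, Finsupp.single_apply, if_neg hne]
      omega
    · intro h
      exact absurd (Finset.mem_filter.2 ⟨Finset.mem_univ _, by omega⟩) h

end ex

section fin

variable {k : Type*} [Field k]

lemma fin_of_art {B : Type*} [CommRing B] [IsLocalRing B] [Algebra k B] [IsArtinianRing B]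
    (hres : ∀ b : B, ∃ c : k, b - algebraMap k B c ∈ maximalIdeal B) : FiniteDimensional k B := by
  obtain ⟨N, hN⟩ : ∃ N, maximalIdeal B ^ N = ⊥ := by
    have := IsArtinianRing.isNilpotent_jacobson_bot (R := B)
    rw [IsLocalRing.jacobson_eq_maximalIdeal ⊥ bot_ne_top] at this
    exact this
  have key : ∀ n, n ≤ N → ((maximalIdeal B ^ (N - n)).restrictScalars k).FG := by
    intro n
    induction n with
    | zero =>
      intro _
      rw [Nat.sub_zero, hN]
      have : (⊥ : Ideal B).restrictScalars k = ⊥ := by ext; simp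
      rw [this]; exact Submodule.fg_bot
    | succ n ih =>
      intro hn
      have ih' := ih (by omega)
      set i := N - (n + 1) with hi
      have hi2 : N - n = i + 1 := by omega
      rw [hi2] at ih'
      obtain ⟨S, hS⟩ := (IsNoetherian.noetherian (maximalIdeal B ^ i) : (maximalIdeal B ^ i).FG)
      have e : (maximalIdeal B ^ i).restrictScalars k =
          Submodule.span k (S : Set B) ⊔ (maximalIdeal B ^ (i + 1)).restrictScalars k := by
        apply le_antisymm
        · intro x hx
          have hx' : x ∈ Submodule.span B (S : Set B) := by rw [hS]; exact hx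
          clear hx
          induction hx' using Submodule.span_induction with
          | mem x hx => exact Submodule.mem_sup_left (Submodule.subset_span hx)
          | zero => exact zero_mem _
          | add x y hx hy h1 h2 => exact add_mem h1 h2
          | smul b x hx h1 =>
            have hx2 : x ∈ maximalIdeal B ^ i := by rw [hS] at hx; exact hx
            obtain ⟨c, hc⟩ := hres b
            have : b • x = c • x + (b - algebraMap k B c) * x := by
              rw [Algebra.smul_def c x, smul_eq_mul]; ring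
            rw [this]
            refine add_mem (Submodule.smul_mem _ _ h1) (Submodule.mem_sup_right ?_)
            exact pmul1 hc hx2
        · refine sup_le ?_ ?_
          · rw [Submodule.span_le]
            intro x hx
            have : x ∈ Submodule.span B (S : Set B) := Submodule.subset_span hx
            rw [hS] at this; exact this
          · intro x hx
            exact Ideal.pow_le_pow_right (Nat.le_succ i) hx
      rw [e]
      exact (Submodule.fg_span S.finite_toSet).sup ih'
  have h := key N le_rfl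
  rw [Nat.sub_self, pow_zero, Ideal.one_eq_top, Submodule.restrictScalars_top] at h
  exact ⟨h⟩

end fin

/-- **Main theorem.** -/
theorem main (k : Type*) [Field k] (r : ℕ) (hr : 3 ≤ r) :
    ∃ (I : Ideal (PS k r)) (_ : IsLocalRing (PS k r ⧸ I)), IsAG (PS k r ⧸ I) k ∧
      I ≤ maximalIdeal (PS k r) ^ 2 ∧ ∃ a, 1 ≤ a ∧
      ∀ (s : ℕ) (J : Ideal (PS k s)) [IsLocalRing (PS k s ⧸ J)], IsAG (PS k s ⧸ J) k →
        ¬ ∀ u i, hilb (PS k s ⧸ J) k u i = if u ≤ a then hilb (PS k r ⧸ I) k u i else 0 := by
  refine ⟨II k hr, inferInstance, isAG k hr, II_le k hr, 1, le_rfl, ?_⟩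
  intro s J _ hJ h
  have : IsArtinianRing (PS k s ⧸ J) := hJ.1
  have : FiniteDimensional k (PS k s ⧸ J) := fin_of_art fun b => residue b
  have e0 : ∀ i, hilb (PS k s ⧸ J) k 0 i = hilb (AA k hr) k 0 i := fun i => by rw [h, if_pos (by norm_num)]
  have e1 : ∀ i, hilb (PS k s ⧸ J) k 1 i = hilb (AA k hr) k 1 i := fun i => by rw [h, if_pos le_rfl]
  have e2 : ∀ u i, 2 ≤ u → hilb (PS k s ⧸ J) k u i = 0 := fun u i hu => by rw [h, if_neg (by omega)]
  have h8 : socleDegree (PS k s ⧸ J) = 8 := by
    rw [socle_eq k e0]; exact sd k hr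
  refine nonexist k h8 ?_ ?_ (fun u hu => e2 u 5 hu) (fun u hu => e2 u 2 hu) ?_ ?_
  · rw [e0]; exact h01 k hr
  · intro u hu
    rcases Nat.lt_or_ge 1 u with h1 | h1
    · exact e2 u 3 h1
    · have : u = 1 := by omega
      rw [this, e1]; exact h13 k hr
  · rw [e0, e1]
    have a1 := hilb_add (A := AA k hr) k 0 5
    have a2 := hilb_add (A := AA k hr) k 1 5
    rw [pre_zero k] at a1
    have a3 := l5 k hr
    have a2' : hilb (AA k hr) k 1 5 + fr k (pre (AA k hr) 2 5) = fr k (pre (AA k hr) 1 5) := a2
    have a1' : hilb (AA k hr) k 0 5 + fr k (pre (AA k hr) 1 5) = fr k (maximalIdeal (AA k hr) ^ 5) := a1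
    omega
  · rw [e0, e1]
    have a1 := hilb_add (A := AA k hr) k 0 2
    have a2 := hilb_add (A := AA k hr) k 1 2
    rw [pre_zero k] at a1
    have a3 := l2 k hr
    have a2' : hilb (AA k hr) k 1 2 + fr k (pre (AA k hr) 2 2) = fr k (pre (AA k hr) 1 2) := a2
    have a1' : hilb (AA k hr) k 0 2 + fr k (pre (AA k hr) 1 2) = fr k (maximalIdeal (AA k hr) ^ 2) := a1
    omega

end Q37.NU
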