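import Pool.Agent.Q37.NU.Defs

/-! # Non-ubiquity: the powers of the maximal ideal of a power series ring -/

set_option autoImplicit false

namespace Q37.NU

open IsLocalRing MvPowerSeries Finset

variable {k : Type*} [Field k] {r : ℕ}

/-- power series of order at least `i` -/
def Ord (k : Type*) [Field k] (r i : ℕ) : Ideal (PS k r) where
  carrier := {f | ∀ b : Fin r →₀ ℕ, b.degree < i → coeff b f = 0}
  zero_mem' := fun b _ => by simp
  add_mem' := fun {f g} hf hg b hb => by rw [map_add, hf b hb, hg b hb, add_zero]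
  smul_mem' := fun c f hf b hb => by
    rw [smul_eq_mul, coeff_mul]
    refine Finset.sum_eq_zero fun p hp => ?_
    rw [HasAntidiagonal.mem_antidiagonal] at hp
    have : p.2.degree < i := by
      have h := congrArg Finsupp.degree hp
      rw [map_add] at h
      omega
    rw [hf p.2 this, mul_zero]

lemma mem_Ord {i : ℕ} {f : PS k r} : f ∈ Ord k r i ↔ ∀ b : Fin r →₀ ℕ, b.degree < i → coeff b f = 0 :=
  Iff.rfl

lemma Ord_mono {i j : ℕ} (h : i ≤ j) : Ord k r j ≤ Ord k r i := fun _ hf b hb => hf b (by omega)

lemma coeff_mul_zero {b : Fin r →₀ ℕ} {f g : PS k r}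
    (h : ∀ p q : Fin r →₀ ℕ, p + q = b → coeff p f = 0 ∨ coeff q g = 0) : coeff b (f * g) = 0 := by
  rw [coeff_mul]
  refine Finset.sum_eq_zero fun p hp => ?_
  rw [HasAntidiagonal.mem_antidiagonal] at hp
  rcases h p.1 p.2 hp with h | h
  · rw [h, zero_mul]
  · rw [h, mul_zero]

lemma Ord_mul {i j : ℕ} {f g : PS k r} (hf : f ∈ Ord k r i) (hg : g ∈ Ord k r j) : f * g ∈ Ord k r (i + j) := by
  intro b hb
  refine coeff_mul_zero fun p q hpq => ?_
  have h := congrArg Finsupp.degree hpq
  rw [map_add] at h
  by_cases hp : p.degree < i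
  · exact Or.inl (hf p hp)
  · exact Or.inr (hg q (by omega))

lemma max_eq : maximalIdeal (PS k r) = Ord k r 1 := by
  ext f
  rw [IsLocalRing.mem_maximalIdeal, mem_nonunits_iff, isUnit_iff_constantCoeff, isUnit_iff_ne_zero, not_not]
  constructor
  · intro h b hb
    have : b = 0 := by rw [← Finsupp.degree_eq_zero_iff]; omega
    rw [this]; simpa using h
  · intro h
    have := h 0 (by simp)
    simpa using this

/-- the `l`-th part of `f` after division by the least variable -/
noncomputable def part (f : PS k r) (l : Fin r) : PS k r :=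
  fun c => if ∀ l' : Fin r, l' < l → c l' = 0 then coeff (c + Finsupp.single l 1) f else 0

lemma coeff_part (f : PS k r) (l : Fin r) (c : Fin r →₀ ℕ) :
    coeff c (part f l) = if ∀ l' : Fin r, l' < l → c l' = 0 then coeff (c + Finsupp.single l 1) f else 0 := rfl

lemma sum_part {f : PS k r} (hf : coeff 0 f = 0) : f = ∑ l, monomial (Finsupp.single l 1) (1 : k) * part f l := by
  ext b
  rw [map_sum]
  simp only [coeff_monomial_mul, one_mul]
  by_cases hb : b = 0
  · rw [hb, hf]
    symm
    refine Finset.sum_eq_zero fun l _ => ?_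
    rw [if_neg]
    intro h
    have := h l
    simp at this
  · have hne : b.support.Nonempty := Finsupp.support_nonempty_iff.2 hb
    set l0 := b.support.min' hne with hl0
    have h0 : b l0 ≠ 0 := by
      have := b.support.min'_mem hne
      rwa [Finsupp.mem_support_iff] at this
    have h1 : ∀ l', l' < l0 → b l' = 0 := by
      intro l' hl'
      by_contra h
      have := b.support.min'_le l' (Finsupp.mem_support_iff.2 h)
      exact absurd hl' (not_lt.2 this)
    symm
    rw [Finset.sum_eq_single l0]
    · have hle : Finsupp.single l0 1 ≤ b := by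
        rw [Finsupp.single_le_iff]; omega
      rw [if_pos hle, coeff_part, if_pos, tsub_add_cancel_of_le hle]
      intro l' hl'
      rw [Finsupp.tsub_apply, h1 l' hl', Nat.zero_sub]
    · intro l _ hl
      rcases lt_or_gt_of_ne hl with h | h
      · rw [if_neg]
        rw [Finsupp.single_le_iff, h1 l h]
        omega
      · split_ifs with h2
        · rw [coeff_part, if_neg]
          intro h3
          have := h3 l0 h
          rw [Finsupp.tsub_apply, Finsupp.single_apply, if_neg (ne_of_gt h)] at this
          exact h0 this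
        · rfl
    · intro h; exact absurd (Finset.mem_univ _) h

lemma pow_eq (i : ℕ) : maximalIdeal (PS k r) ^ i = Ord k r i := by
  induction i with
  | zero =>
    rw [pow_zero, Ideal.one_eq_top]
    symm
    rw [Ideal.eq_top_iff_one]
    intro b hb; omega
  | succ i ih =>
    rw [pow_succ, ih]
    apply le_antisymm
    · rw [Ideal.mul_le]
      intro f hf g hg
      rw [max_eq] at hg
      exact Ord_mul hf hg
    · intro f hf
      rw [sum_part (hf 0 (by simp))]
      refine Ideal.sum_mem _ fun l _ => ?_
      rw [mul_comm]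
      refine Ideal.mul_mem_mul ?_ ?_
      · rw [max_eq]
        intro c hc
        have : c = 0 := by rw [← Finsupp.degree_eq_zero_iff]; omega
        rw [this, coeff_monomial, if_neg]
        intro h
        have := congrArg (fun t => t l) h
        simp at this
      · intro c hc
        rw [coeff_part]
        split_ifs
        · refine hf _ ?_
          rw [map_add, Finsupp.degree_single]; omega
        · rfl

section quot

variable {I : Ideal (PS k r)} [IsLocalRing (PS k r ⧸ I)]

lemma I_le : I ≤ maximalIdeal (PS k r) := by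
  refine le_maximalIdeal fun h => ?_
  have : Subsingleton (PS k r ⧸ I) := Ideal.Quotient.subsingleton_iff.2 h
  exact not_subsingleton (PS k r ⧸ I) this

lemma mk_mem_max {f : PS k r} : Ideal.Quotient.mk I f ∈ maximalIdeal (PS k r ⧸ I) ↔
    f ∈ maximalIdeal (PS k r) := by
  rw [mem_maximalIdeal, mem_maximalIdeal, mem_nonunits_iff, mem_nonunits_iff, not_iff_not]
  constructor
  · intro h
    obtain ⟨g, hg⟩ := Ideal.Quotient.mk_surjective (I := I) (↑h.unit⁻¹ : PS k r ⧸ I)
    have h1 : Ideal.Quotient.mk I (f * g) = 1 := by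
      rw [map_mul, hg]; exact h.mul_val_inv
    rw [← map_one (Ideal.Quotient.mk I), Ideal.Quotient.mk_eq_mk_iff_sub_mem] at h1
    by_contra hf
    have h2 : f * g ∈ maximalIdeal (PS k r) := Ideal.mul_mem_right _ _ ((mem_maximalIdeal f).2 hf)
    have h3 := sub_mem h2 (I_le (I := I) h1)
    rw [sub_sub_cancel] at h3
    exact (Ideal.ne_top_iff_one _).1 (maximalIdeal.isMaximal (PS k r)).ne_top h3
  · exact fun h => h.map _

lemma max_quot : maximalIdeal (PS k r ⧸ I) = (maximalIdeal (PS k r)).map (Ideal.Quotient.mk I) := by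
  ext a
  rw [Ideal.mem_map_iff_of_surjective _ Ideal.Quotient.mk_surjective]
  constructor
  · intro ha
    obtain ⟨f, rfl⟩ := Ideal.Quotient.mk_surjective a
    exact ⟨f, mk_mem_max.1 ha, rfl⟩
  · rintro ⟨f, hf, rfl⟩
    exact mk_mem_max.2 hf

lemma mem_pow_quot {i : ℕ} {a : PS k r ⧸ I} :
    a ∈ maximalIdeal (PS k r ⧸ I) ^ i ↔ ∃ f ∈ Ord k r i, Ideal.Quotient.mk I f = a := by
  rw [max_quot, ← Ideal.map_pow, pow_eq, Ideal.mem_map_iff_of_surjective _ Ideal.Quotient.mk_surjective]

lemma residue (a : PS k r ⧸ I) : ∃ c : k, a - algebraMap k _ c ∈ maximalIdeal (PS k r ⧸ I) := by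
  obtain ⟨f, rfl⟩ := Ideal.Quotient.mk_surjective a
  refine ⟨constantCoeff f, ?_⟩
  have : Ideal.Quotient.mk I f - algebraMap k _ (constantCoeff f) =
      Ideal.Quotient.mk I (f - C (constantCoeff f)) := by
    rw [map_sub]; rfl
  rw [this, mk_mem_max, max_eq]
  intro b hb
  have : b = 0 := by rw [← Finsupp.degree_eq_zero_iff]; omega
  rw [this]
  simp

end quot

end Q37.NU
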